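import Pool.Agent.Q99.SML2.Halves

/-!
# The cell structure and polynomials which annihilate
-/

set_option autoImplicit false

open Finset Polynomial

namespace Q99.SML

variable {m : ℕ} {K : Type*} [CommRing K]

/-- noncrossing matchings of the end points of the box -/
abbrev NX (m : ℕ) : Type := {f : Mt m // NC f}

noncomputable instance : Fintype (NX m) := by
  classical exact Subtype.fintype _

/-- effect of a cup and cap -/
def tN (i : ℕ) (h : i + 1 < m) (f : NX m) : NX m := ⟨tI i h f.1, NC_tau rfl f.1 f.2⟩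

/-- the cup-cap operator -/
noncomputable def En (d : K) (i : ℕ) (h : i + 1 < m) : Module.End K (NX m → K) where
  toFun g f := d ^ (bI i h f.1) * g (tN i h f)
  map_add' := by
    intro g g'
    funext f
    simp only [Pi.add_apply]
    ring
  map_smul' := by
    intro c g
    funext f
    simp only [Pi.smul_apply, smul_eq_mul, RingHom.id_apply]
    ring

theorem En_apply (d : K) (i : ℕ) (h : i + 1 < m) (g : NX m → K) (f : NX m) :
    En d i h g f = d ^ (bI i h f.1) * g (tN i h f) := rfl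

/-- the halves with `n` through strands -/
abbrev Cn (m n : ℕ) : Type := {c : Hf m // (∃ f : NX m, lowv f.1 = c) ∧ th c = n}

noncomputable instance (n : ℕ) : Fintype (Cn m n) := by
  classical exact Subtype.fintype _

noncomputable instance (n : ℕ) : DecidableEq (Cn m n) := by
  classical exact inferInstance

/-- compatibility of functions on matchings and on halves -/
def QQ (n : ℕ) (u : Hf m) (g : NX m → K) (g' : Cn m n → K) : Prop :=
  (∀ f : NX m, th (lowv f.1) < n → g f = 0) ∧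
  ∀ (f : NX m) (h : th (lowv f.1) = n), uppv f.1 = u → g f = g' ⟨lowv f.1, ⟨f, rfl⟩, h⟩

theorem QQ.add {n : ℕ} {u : Hf m} {g h : NX m → K} {g' h' : Cn m n → K} (h1 : QQ n u g g')
    (h2 : QQ n u h h') : QQ n u (g + h) (g' + h') :=
  ⟨fun f hf => by rw [Pi.add_apply, h1.1 f hf, h2.1 f hf, add_zero],
    fun f hf hu => by rw [Pi.add_apply, Pi.add_apply, h1.2 f hf hu, h2.2 f hf hu]⟩

theorem QQ.smul {n : ℕ} {u : Hf m} {g : NX m → K} {g' : Cn m n → K} (h1 : QQ n u g g')
    (c : K) : QQ n u (c • g) (c • g') :=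
  ⟨fun f hf => by rw [Pi.smul_apply, h1.1 f hf, smul_zero],
    fun f hf hu => by rw [Pi.smul_apply, Pi.smul_apply, h1.2 f hf hu]⟩

/-- `Z` acts compatibly with `Z'` -/
def Par (n : ℕ) (Z : Module.End K (NX m → K)) (Z' : Module.End K (Cn m n → K)) : Prop :=
  ∀ u g g', QQ n u g g' → QQ n u (Z g) (Z' g')

theorem Par.one (n : ℕ) : Par (K := K) n (1 : Module.End K (NX m → K)) 1 := fun _ _ _ h => h

theorem Par.add {n : ℕ} {Z Y : Module.End K (NX m → K)} {Z' Y' : Module.End K (Cn m n → K)}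
    (h : Par n Z Z') (h' : Par n Y Y') : Par n (Z + Y) (Z' + Y') :=
  fun u g g' hq => (h u g g' hq).add (h' u g g' hq)

theorem Par.smul {n : ℕ} {Z : Module.End K (NX m → K)} {Z' : Module.End K (Cn m n → K)}
    (h : Par n Z Z') (c : K) : Par n (c • Z) (c • Z') :=
  fun u g g' hq => (h u g g' hq).smul c

theorem Par.mul {n : ℕ} {Z Y : Module.End K (NX m → K)} {Z' Y' : Module.End K (Cn m n → K)}
    (h : Par n Z Z') (h' : Par n Y Y') : Par n (Z * Y) (Z' * Y') :=
  fun u g g' hq => h u _ _ (h' u g g' hq)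

theorem Par.poly {n : ℕ} {Z : Module.End K (NX m → K)} {Z' : Module.End K (Cn m n → K)}
    (h : Par n Z Z') (P : K[X]) : Par n (aeval Z P) (aeval Z' P) := by
  induction P using Polynomial.induction_on' with
  | add P Q hP hQ => rw [map_add, map_add]; exact hP.add hQ
  | monomial k a =>
    have hpow : Par n (Z ^ k) (Z' ^ k) := by
      induction k with
      | zero => rw [pow_zero, pow_zero]; exact Par.one n
      | succ k ih => rw [pow_succ, pow_succ]; exact ih.mul h
    rw [aeval_monomial, aeval_monomial, ← Algebra.smul_def, ← Algebra.smul_def]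
    exact hpow.smul a

/-- operators compatible with the cell structure -/
def Cellular (Z : Module.End K (NX m → K)) : Prop :=
  ∀ n, ∃ Z' : Module.End K (Cn m n → K), Par n Z Z'

theorem Cellular.one : Cellular (1 : Module.End K (NX m → K)) := fun n => ⟨1, Par.one n⟩

theorem Cellular.add {Z Y : Module.End K (NX m → K)} (h : Cellular Z) (h' : Cellular Y) :
    Cellular (Z + Y) := fun n => by
  obtain ⟨Z', hZ⟩ := h n
  obtain ⟨Y', hY⟩ := h' n
  exact ⟨Z' + Y', hZ.add hY⟩

theorem Cellular.smul {Z : Module.End K (NX m → K)} (h : Cellular Z) (c : K) :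
    Cellular (c • Z) := fun n => by
  obtain ⟨Z', hZ⟩ := h n
  exact ⟨c • Z', hZ.smul c⟩

theorem Cellular.mul {Z Y : Module.End K (NX m → K)} (h : Cellular Z) (h' : Cellular Y) :
    Cellular (Z * Y) := fun n => by
  obtain ⟨Z', hZ⟩ := h n
  obtain ⟨Y', hY⟩ := h' n
  exact ⟨Z' * Y', hZ.mul hY⟩

theorem Cellular.pow {Z : Module.End K (NX m → K)} (h : Cellular Z) (k : ℕ) :
    Cellular (Z ^ k) := by
  induction k with
  | zero => rw [pow_zero]; exact Cellular.one
  | succ k ih => rw [pow_succ]; exact ih.mul h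

/-- the operator on halves -/
noncomputable def Eh (d : K) (n i : ℕ) (h : i + 1 < m) : Module.End K (Cn m n → K) where
  toFun g c :=
    open Classical in
    if hc : (c.1 ⟨i, Nat.lt_of_succ_lt h⟩ ≠ none ∨ c.1 ⟨i + 1, h⟩ ≠ none) ∧
        ((∃ f : NX m, lowv f.1 = theta ⟨i, Nat.lt_of_succ_lt h⟩ ⟨i + 1, h⟩ c.1) ∧
          th (theta ⟨i, Nat.lt_of_succ_lt h⟩ ⟨i + 1, h⟩ c.1) = n) then
      d ^ (if c.1 ⟨i, Nat.lt_of_succ_lt h⟩ = some ⟨i + 1, h⟩ then 1 else 0) * g ⟨_, hc.2⟩ else 0
  map_add' := by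
    intro g g'
    funext c
    simp only [Pi.add_apply]
    split_ifs <;> ring
  map_smul' := by
    intro a g
    funext c
    simp only [Pi.smul_apply, smul_eq_mul, RingHom.id_apply]
    split_ifs <;> ring

theorem Cellular.En (d : K) (i : ℕ) (h : i + 1 < m) : Cellular (En d i h) := by
  classical
  intro n
  refine ⟨Eh d n i h, fun u g g' hq => ?_⟩
  have hpq : (⟨i, Nat.lt_of_succ_lt h⟩ : Fin m) ≠ ⟨i + 1, h⟩ := by
    intro e; simp only [Fin.mk.injEq] at e; omega
  have hle : ∀ f : NX m, th (lowv (tN i h f).1) ≤ th (lowv f.1) := by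
    intro f
    by_cases hk : lowv f.1 ⟨i, Nat.lt_of_succ_lt h⟩ ≠ none ∨ lowv f.1 ⟨i + 1, h⟩ ≠ none
    · exact (th_tau hpq f.1 hk).le
    · push Not at hk
      exact (th_tau_lt hpq f.1 hk.1 hk.2).le
  constructor
  · intro f hf
    rw [En_apply, hq.1 _ (lt_of_le_of_lt (hle f) hf), mul_zero]
  · intro f hf hu
    rw [En_apply]
    by_cases hk : lowv f.1 ⟨i, Nat.lt_of_succ_lt h⟩ ≠ none ∨ lowv f.1 ⟨i + 1, h⟩ ≠ none
    · have h1 : lowv (tN i h f).1 = theta ⟨i, Nat.lt_of_succ_lt h⟩ ⟨i + 1, h⟩ (lowv f.1) :=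
        lowv_tau hpq f.1
      have h2 : th (lowv (tN i h f).1) = n := (th_tau hpq f.1 hk).trans hf
      have h3 : uppv (tN i h f).1 = u := (uppv_tau hpq f.1 hk).trans hu
      have h4 := hq.2 (tN i h f) h2 h3
      have hc : ((⟨lowv f.1, ⟨f, rfl⟩, hf⟩ : Cn m n).1 ⟨i, Nat.lt_of_succ_lt h⟩ ≠ none ∨
          (⟨lowv f.1, ⟨f, rfl⟩, hf⟩ : Cn m n).1 ⟨i + 1, h⟩ ≠ none) ∧
        ((∃ f' : NX m, lowv f'.1 = theta ⟨i, Nat.lt_of_succ_lt h⟩ ⟨i + 1, h⟩
            (⟨lowv f.1, ⟨f, rfl⟩, hf⟩ : Cn m n).1) ∧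
          th (theta ⟨i, Nat.lt_of_succ_lt h⟩ ⟨i + 1, h⟩
            (⟨lowv f.1, ⟨f, rfl⟩, hf⟩ : Cn m n).1) = n) :=
        ⟨hk, ⟨tN i h f, h1⟩, by rw [← h1]; exact h2⟩
      show _ = dite _ _ _
      rw [dif_pos hc, h4]
      have h5 : bI i h f.1 = if lowv f.1 ⟨i, Nat.lt_of_succ_lt h⟩ = some ⟨i + 1, h⟩ then 1 else 0 :=
        bb_lowv f.1
      rw [h5]
      congr 1
      exact congrArg g' (Subtype.ext h1)
    · have hk' := hk
      push Not at hk'
      have h2 : th (lowv (tN i h f).1) < n := hf ▸ th_tau_lt hpq f.1 hk'.1 hk'.2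
      rw [hq.1 _ h2, mul_zero]
      show _ = dite _ _ _
      rw [dif_neg (fun hc => hk hc.1)]

theorem exists_QQ (n : ℕ) (u : Hf m) (g : NX m → K) (hg : ∀ f : NX m, th (lowv f.1) < n → g f = 0) :
    ∃ g' : Cn m n → K, QQ n u g g' := by
  classical
  refine ⟨fun c => if h : ∃ f : NX m, lowv f.1 = c.1 ∧ uppv f.1 = u then g h.choose else 0, hg, ?_⟩
  intro f hf hu
  have h : ∃ f' : NX m, lowv f'.1 = (⟨lowv f.1, ⟨f, rfl⟩, hf⟩ : Cn m n).1 ∧ uppv f'.1 = u :=
    ⟨f, rfl, hu⟩
  show _ = dite _ _ _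
  rw [dif_pos h]
  congr 1
  apply Subtype.ext
  exact halves_inj f.2 h.choose.2 h.choose_spec.1.symm (hu.trans h.choose_spec.2.symm)

theorem sum_card_Cn (m : ℕ) : ∑ n ∈ Finset.range (m + 1), Fintype.card (Cn m n) ≤
    m.choose (m / 2) := by
  classical
  set S : Finset (Hf m) := {c | ∃ f : NX m, lowv f.1 = c} with hS
  refine le_trans ?_ (card_halves S ?_)
  · rw [Finset.card_eq_sum_card_fiberwise (s := S) (f := th) (t := Finset.range (m + 1))]
    · apply Finset.sum_le_sum
      intro n _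
      rw [Fintype.card_subtype]
      apply Finset.card_le_card
      intro c hc
      rw [Finset.mem_filter] at hc ⊢
      rw [hS, Finset.mem_filter]
      exact ⟨⟨Finset.mem_univ _, hc.2.1⟩, hc.2.2⟩
    · intro c _
      rw [Finset.coe_range, Set.mem_Iio]
      have : th c ≤ Fintype.card (Fin m) := Finset.card_le_univ _
      rw [Fintype.card_fin] at this
      omega
  · intro c hc
    rw [hS, Finset.mem_filter] at hc
    obtain ⟨_, f, hf⟩ := hc
    exact ⟨f.1, f.2, hf⟩

/-- a cellular operator is annihilated by a monic polynomial whose degree is the number of halves -/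
theorem Cellular.ann [Nontrivial K] {Z : Module.End K (NX m → K)} (hZ : Cellular Z) :
    ∃ P : K[X], P.Monic ∧ P.natDegree ≤ m.choose (m / 2) ∧ aeval Z P = 0 := by
  classical
  have key : ∀ n : ℕ, ∃ P : K[X], P.Monic ∧
      P.natDegree = ∑ i ∈ Finset.range n, Fintype.card (Cn m i) ∧
      ∀ (g : NX m → K) (f : NX m), th (lowv f.1) < n → aeval Z P g f = 0 := by
    intro n
    induction n with
    | zero => exact ⟨1, monic_one, by simp, fun g f hf => absurd hf (Nat.not_lt_zero _)⟩
    | succ n ih =>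
      obtain ⟨P, h1, h2, h3⟩ := ih
      obtain ⟨Z', hp⟩ := hZ n
      refine ⟨Z'.charpoly * P, (LinearMap.charpoly_monic Z').mul h1, ?_, ?_⟩
      · rw [(LinearMap.charpoly_monic Z').natDegree_mul h1, LinearMap.charpoly_natDegree, h2,
          Finset.sum_range_succ, Module.finrank_fintype_fun_eq_card, add_comm]
      · intro g f hf
        obtain ⟨g', hg'⟩ := exists_QQ n (uppv f.1) (aeval Z P g) (fun f' hf' => h3 g f' hf')
        have h4 := hp.poly Z'.charpoly _ _ _ hg'
        rw [LinearMap.aeval_self_charpoly] at h4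
        rw [map_mul, Module.End.mul_apply]
        rcases Nat.lt_succ_iff_lt_or_eq.1 hf with h5 | h5
        · exact h4.1 f h5
        · exact h4.2 f h5 rfl
  obtain ⟨P, h1, h2, h3⟩ := key (m + 1)
  refine ⟨P, h1, h2 ▸ sum_card_Cn m, ?_⟩
  apply LinearMap.ext
  intro g
  funext f
  apply h3
  have : th (lowv f.1) ≤ Fintype.card (Fin m) := Finset.card_le_univ _
  rw [Fintype.card_fin] at this
  omega

/-- division by a nonzero scalar -/
theorem Cellular.div [IsDomain K] {N B : Module.End K (NX m → K)} (hN : Cellular N) (x : K)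
    (hx : x ≠ 0) (h : N = 1 + x • B) : Cellular B := by
  classical
  intro n
  obtain ⟨N', hp⟩ := hN n
  have key : ∀ (g' : Cn m n → K) (c : Cn m n), ∃ y, N' g' c - g' c = x * y := by
    rintro g' ⟨c, ⟨f, rfl⟩, hf⟩
    let g : NX m → K := fun f' => if h : th (lowv f'.1) = n ∧ uppv f'.1 = uppv f.1 then
      g' ⟨lowv f'.1, ⟨f', rfl⟩, h.1⟩ else 0
    have hq : QQ n (uppv f.1) g g' := by
      constructor
      · intro f' hf'
        show dite _ _ _ = _
        rw [dif_neg (fun e => hf'.ne e.1)]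
      · intro f' hf' hu
        show dite _ _ _ = _
        rw [dif_pos ⟨hf', hu⟩]
    have h1 := (hp _ g g' hq).2 f hf rfl
    have h2 := hq.2 f hf rfl
    refine ⟨B g f, ?_⟩
    rw [← h1, ← h2, h]
    simp
  choose b hb using key
  have hB' : ∀ g' c, x * b g' c = N' g' c - g' c := fun g' c => (hb g' c).symm
  refine ⟨{ toFun := b, map_add' := ?_, map_smul' := ?_ }, ?_⟩
  · intro g g'
    funext c
    apply mul_left_cancel₀ hx
    rw [Pi.add_apply, mul_add, hB', hB', hB', map_add, Pi.add_apply, Pi.add_apply]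
    ring
  · intro a g
    funext c
    apply mul_left_cancel₀ hx
    rw [RingHom.id_apply, Pi.smul_apply, smul_eq_mul, mul_left_comm, hB', hB', map_smul,
      Pi.smul_apply, Pi.smul_apply, smul_eq_mul, smul_eq_mul]
    ring
  · intro u g g' hq
    have h1 := hp u g g' hq
    have h2 : ∀ f, x * B g f = N g f - g f := by
      intro f
      rw [h]
      simp
    constructor
    · intro f hf
      apply mul_left_cancel₀ hx
      rw [h2, h1.1 f hf, hq.1 f hf, sub_zero, mul_zero]
    · intro f hf hu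
      apply mul_left_cancel₀ hx
      show x * B g f = x * b g' _
      rw [h2, hB', h1.2 f hf hu, hq.2 f hf hu]

end Q99.SML
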