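import Pool.Agent.Q99.SML2.Planar

/-!
# Halves of noncrossing matchings under cups and caps
-/

set_option autoImplicit false

open Finset LaurentPolynomial Pool.Agent.H891R2.Jones

namespace Q99.SML

variable {m : ℕ}

/-- the number of through strands -/
def th (c : Hf m) : ℕ := #{j | c j = none}

/-- effect of a cup and cap on the lower half -/
def theta (p q : Fin m) (c : Hf m) : Hf m := fun j =>
  if j = p then some q else if j = q then some p else if c p = some j then c q
  else if c q = some j then c p else c j

section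

variable {p q : Fin m} (hpq : p ≠ q) (f : Mt m)

include hpq in
theorem lowv_tau : lowv (tau p q f) = theta p q (lowv f) := by
  funext j
  unfold theta
  by_cases h1 : j = p
  · rw [if_pos h1, h1]
    exact lowv_some.2 (tau_p hpq f)
  rw [if_neg h1]
  by_cases h2 : j = q
  · rw [if_pos h2, h2]
    exact lowv_some.2 (tau_q hpq f)
  rw [if_neg h2]
  by_cases h3 : lowv f p = some j
  · rw [if_pos h3]
    have h4 := lowv_some.1 h3
    unfold lowv
    rw [← h4, tau_fp hpq f]
  rw [if_neg h3]
  by_cases h4 : lowv f q = some j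
  · rw [if_pos h4]
    have h5 := lowv_some.1 h4
    unfold lowv
    rw [← h5, tau_fq hpq f]
  rw [if_neg h4]
  unfold lowv
  rw [tau_other f (.inl j) (fun e => h1 (Sum.inl.inj e)) (fun e => h2 (Sum.inl.inj e))
    (fun e => h3 (lowv_some.2 e.symm)) (fun e => h4 (lowv_some.2 e.symm))]

include hpq in
theorem uppv_tau (h : lowv f p ≠ none ∨ lowv f q ≠ none) : uppv (tau p q f) = uppv f := by
  funext j
  by_cases h3 : (.inr j : Pt m) = f.1 (.inl p)
  · have h5 : f.1 (.inr j) = .inl p := by rw [h3, f.inv]
    have h6 : lowv f p = none := lowv_none.2 ⟨j, h3.symm⟩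
    obtain ⟨k, hk⟩ := Option.ne_none_iff_exists'.1 (h.resolve_left (fun h' => h' h6))
    have h7 : (tau p q f).1 (.inr j) = .inl k := by
      rw [h3, tau_fp hpq f, lowv_some.1 hk]
    rw [uppv_none.2 ⟨k, h7⟩, uppv_none.2 ⟨p, h5⟩]
  by_cases h4 : (.inr j : Pt m) = f.1 (.inl q)
  · have h5 : f.1 (.inr j) = .inl q := by rw [h4, f.inv]
    have h6 : lowv f q = none := lowv_none.2 ⟨j, h4.symm⟩
    obtain ⟨k, hk⟩ := Option.ne_none_iff_exists'.1 (h.resolve_right (fun h' => h' h6))
    have h7 : (tau p q f).1 (.inr j) = .inl k := by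
      rw [h4, tau_fq hpq f, lowv_some.1 hk]
    rw [uppv_none.2 ⟨k, h7⟩, uppv_none.2 ⟨q, h5⟩]
  unfold uppv
  rw [tau_other f (.inr j) (by simp) (by simp) h3 h4]

include hpq in
theorem tau_comm : tau p q f = tau q p f := by
  apply Subtype.ext
  apply Equiv.ext
  intro a
  by_cases h1 : a = .inl p
  · rw [h1, tau_p hpq, tau_q hpq.symm]
  by_cases h2 : a = .inl q
  · rw [h2, tau_q hpq, tau_p hpq.symm]
  by_cases h3 : a = f.1 (.inl p)
  · rw [h3, tau_fp hpq f, tau_fq hpq.symm f]
  by_cases h4 : a = f.1 (.inl q)
  · rw [h4, tau_fq hpq f, tau_fp hpq.symm f]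
  rw [tau_other f a h1 h2 h3 h4, tau_other f a h2 h1 h4 h3]

theorem th_tau_aux (h : lowv f p ≠ none) : th (lowv (tau p q f)) = th (lowv f) := by
  obtain ⟨x, hx⟩ := Option.ne_none_iff_exists'.1 h
  have hx' := lowv_some.1 hx
  have key : ∀ j, lowv (tau p q f) j = none ↔ lowv f (Equiv.swap q x j) = none := by
    intro j
    have h1 : (tau p q f).1 (.inl j) = Equiv.swap (.inl q) (.inl x)
        (f.1 (.inl (Equiv.swap q x j))) := by
      show (Equiv.swap (.inl q) (f.1 (.inl p)) * f.1 * Equiv.swap (.inl q) (f.1 (.inl p)))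
        (.inl j) = _
      rw [hx', Equiv.Perm.mul_apply, Equiv.Perm.mul_apply, Sum.inl_injective.swap_apply]
    rw [lowv_none, lowv_none]
    rcases h2 : f.1 (.inl (Equiv.swap q x j)) with k | k
    · rw [h1, h2, Sum.inl_injective.swap_apply]
      simp
    · rw [h1, h2, Equiv.swap_apply_of_ne_of_ne (by simp) (by simp)]
  unfold th
  refine Finset.card_bij (fun j _ => Equiv.swap q x j) ?_ ?_ ?_
  · intro j hj
    rw [Finset.mem_filter] at hj ⊢
    exact ⟨Finset.mem_univ _, (key j).1 hj.2⟩
  · intro a _ b _ hab
    exact (Equiv.swap q x).injective hab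
  · intro b hb
    rw [Finset.mem_filter] at hb
    refine ⟨Equiv.swap q x b, ?_, by simp⟩
    rw [Finset.mem_filter]
    refine ⟨Finset.mem_univ _, (key _).2 ?_⟩
    rw [Equiv.swap_apply_self]
    exact hb.2

include hpq in
theorem th_tau (h : lowv f p ≠ none ∨ lowv f q ≠ none) :
    th (lowv (tau p q f)) = th (lowv f) := by
  rcases h with h | h
  · exact th_tau_aux f h
  · rw [tau_comm hpq f]
    exact th_tau_aux f h

include hpq in
theorem th_tau_lt (h1 : lowv f p = none) (h2 : lowv f q = none) :
    th (lowv (tau p q f)) < th (lowv f) := by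
  unfold th
  apply Finset.card_lt_card
  rw [Finset.ssubset_iff_of_subset]
  · refine ⟨p, by simp [h1], ?_⟩
    rw [lowv_tau hpq]
    simp [theta]
  · intro j hj
    rw [Finset.mem_filter] at hj ⊢
    refine ⟨hj.1, ?_⟩
    have h3 := hj.2
    rw [lowv_tau hpq] at h3
    unfold theta at h3
    split_ifs at h3 with a b c d
    · rw [h1] at c; exact absurd c (by simp)
    · rw [h2] at d; exact absurd d (by simp)
    · exact h3

theorem bb_lowv : bb p q f = if lowv f p = some q then 1 else 0 := by
  unfold bb
  simp only [lowv_some]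

end

/-! ### counting -/

/-- the halves of noncrossing matchings -/
def IsHf (c : Hf m) : Prop := ∃ f : Mt m, NC f ∧ lowv f = c

theorem IsHf.inv {c : Hf m} (h : IsHf c) {i j : Fin m} (hij : c i = some j) : c j = some i := by
  obtain ⟨f, _, rfl⟩ := h
  rw [lowv_some] at hij ⊢
  rw [← hij, f.inv]

theorem IsHf.ne {c : Hf m} (h : IsHf c) {i : Fin m} : c i ≠ some i := by
  obtain ⟨f, _, rfl⟩ := h
  intro e
  rw [lowv_some] at e
  exact f.2.2 _ e

/-- a point between the end points of an arc is matched between them -/
theorem IsHf.mid {c : Hf m} (h : IsHf c) {i j k : Fin m} (hij : c i = some j) (h1 : i < k)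
    (h2 : k < j) : ∃ l, c k = some l ∧ i < l ∧ l < j := by
  obtain ⟨f, hf, rfl⟩ := h
  rw [lowv_some] at hij
  have h3 := (hf.iff (.inl i) (.inl k)).1 (by
    rw [hij]
    left
    exact ⟨h1, h2⟩)
  rw [hij] at h3
  rcases h4 : f.1 (.inl k) with l | l
  · refine ⟨l, lowv_some.2 h4, ?_⟩
    rw [h4] at h3
    rcases h3 with h3 | h3
    · exact h3
    · exfalso
      have e1 : (j : ℕ) < l := h3.1
      have e2 : (l : ℕ) < i := h3.2
      have e3 := Fin.lt_def.1 h1
      have e4 := Fin.lt_def.1 h2
      omega
  · exfalso
    rw [h4] at h3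
    unfold Btw at h3
    simp only [pos] at h3
    omega

/-- number of through strands to the left -/
def rk (c : Hf m) (j : Fin m) : ℕ := #{i | i < j ∧ c i = none}

/-- the code of a half: right end points of the arcs, and the first half of the through strands -/
def code (c : Hf m) : Finset (Fin m) :=
  {j | (∃ k, c j = some k ∧ k < j) ∨ (c j = none ∧ rk c j < th c / 2)}

theorem code_none {c : Hf m} {i : Fin m} (h : c i = none) : i ∈ code c ↔ rk c i < th c / 2 := by
  unfold code
  rw [Finset.mem_filter]
  simp [h]

theorem code_some {c : Hf m} {i j : Fin m} (h : c i = some j) : i ∈ code c ↔ j < i := by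
  unfold code
  rw [Finset.mem_filter]
  simp [h]

theorem code_transfer {c c' : Hf m} (hc : IsHf c) (hc' : IsHf c') (hcode : code c = code c') :
    ∀ (n : ℕ) (i j : Fin m), i < j → (j : ℕ) - i = n → c i = some j → c' i = some j := by
  intro n
  induction n using Nat.strong_induction_on with
  | _ n ih =>
    intro i j hij hn h
    have hin : ∀ k, i < k → k < j → ∃ l, c' k = some l ∧ i < l ∧ l < j := by
      intro k h1 h2
      obtain ⟨l, h3, h4, h5⟩ := hc.mid h h1 h2
      refine ⟨l, ?_, h4, h5⟩
      have e1 := Fin.lt_def.1 h1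
      have e2 := Fin.lt_def.1 h2
      have e4 := Fin.lt_def.1 h4
      have e5 := Fin.lt_def.1 h5
      rcases lt_trichotomy k l with h6 | h6 | h6
      · exact ih (l - k) (by have := Fin.lt_def.1 h6; omega) k l h6 rfl h3
      · rw [h6] at h3; exact absurd h3 hc.ne
      · exact hc'.inv (ih (k - l) (by have := Fin.lt_def.1 h6; omega) l k h6 rfl (hc.inv h3))
    have hi : i ∉ code c' := by
      rw [← hcode, code_some h]
      exact not_lt.2 hij.le
    have hj : j ∈ code c' := by
      rw [← hcode, code_some (hc.inv h)]
      exact hij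
    rcases h1 : c' i with _ | k
    · exfalso
      rw [code_none h1] at hi
      rcases h2 : c' j with _ | l
      · rw [code_none h2] at hj
        have h3 : rk c' i ≤ rk c' j := by
          unfold rk
          apply Finset.card_le_card
          intro x hx
          rw [Finset.mem_filter] at hx ⊢
          exact ⟨hx.1, hx.2.1.trans hij, hx.2.2⟩
        omega
      · rw [code_some h2] at hj
        rcases lt_trichotomy i l with h3 | h3 | h3
        · obtain ⟨l', h4, h5, h6⟩ := hin l h3 hj
          rw [hc'.inv h2] at h4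
          exact h6.ne (Option.some.inj h4).symm
        · rw [h3, hc'.inv h2] at h1
          exact absurd h1 (by simp)
        · obtain ⟨l', h4, _⟩ := hc'.mid (hc'.inv h2) h3 hij
          rw [h1] at h4
          exact absurd h4 (by simp)
    · rw [code_some h1] at hi
      have hik : i < k := lt_of_le_of_ne (not_lt.1 hi) (fun e => hc'.ne (e ▸ h1))
      congr 1
      rcases lt_trichotomy k j with h3 | h3 | h3
      · exfalso
        obtain ⟨l, h4, h5, h6⟩ := hin k hik h3
        rw [hc'.inv h1] at h4
        exact h5.ne (Option.some.inj h4)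
      · exact h3
      · exfalso
        obtain ⟨l, h4, h5, h6⟩ := hc'.mid h1 hij h3
        rw [code_some h4] at hj
        obtain ⟨l', h7, h8, h9⟩ := hin l h5 hj
        rw [hc'.inv h4] at h7
        exact h9.ne (Option.some.inj h7).symm

theorem code_inj {c c' : Hf m} (hc : IsHf c) (hc' : IsHf c') (hcode : code c = code c') :
    c = c' := by
  have key : ∀ {c c' : Hf m}, IsHf c → IsHf c' → code c = code c' → ∀ i j, c i = some j →
      c' i = some j := by
    intro c c' hc hc' hcode i j h
    rcases lt_trichotomy i j with h1 | h1 | h1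
    · exact code_transfer hc hc' hcode _ i j h1 rfl h
    · rw [h1] at h; exact absurd h hc.ne
    · exact hc'.inv (code_transfer hc hc' hcode _ j i h1 rfl (hc.inv h))
  funext i
  rcases h : c i with _ | j
  · rcases h' : c' i with _ | j
    · rfl
    · rw [key hc' hc hcode.symm i j h'] at h
      exact absurd h (by simp)
  · exact (key hc hc' hcode i j h).symm

theorem card_lower {n : ℕ} : ∀ (s : ℕ) (A : Finset (Fin n)), s ≤ A.card →
    #{j ∈ A | #{i ∈ A | i < j} < s} = s := by
  intro s A hs
  have hmono : ∀ j ∈ A, ∀ j' ∈ A, j < j' → #{i ∈ A | i < j} < #{i ∈ A | i < j'} := by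
    intro j hj j' _ hjj
    apply Finset.card_lt_card
    rw [Finset.ssubset_iff_of_subset]
    · exact ⟨j, by simp [hj, hjj], by simp⟩
    · intro x hx
      rw [Finset.mem_filter] at hx ⊢
      exact ⟨hx.1, hx.2.trans hjj⟩
  have hinj : Set.InjOn (fun j => #{i ∈ A | i < j}) (A : Set (Fin n)) := by
    intro j hj j' hj' h
    rcases lt_trichotomy j j' with h1 | h1 | h1
    · exact absurd h (hmono j hj j' hj' h1).ne
    · exact h1
    · exact absurd h.symm (hmono j' hj' j hj h1).ne
  have himg : A.image (fun j => #{i ∈ A | i < j}) = Finset.range A.card := by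
    apply Finset.eq_of_subset_of_card_le
    · intro x hx
      rw [Finset.mem_image] at hx
      obtain ⟨j, hj, rfl⟩ := hx
      rw [Finset.mem_range]
      apply Finset.card_lt_card
      rw [Finset.ssubset_iff_of_subset (Finset.filter_subset _ _)]
      exact ⟨j, hj, by simp⟩
    · rw [Finset.card_image_of_injOn hinj, Finset.card_range]
  have h1 : (Finset.filter (fun j => #{i ∈ A | i < j} < s) A).image
      (fun j => #{i ∈ A | i < j}) = Finset.range s := by
    ext x
    rw [Finset.mem_image, Finset.mem_range]
    constructor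
    · rintro ⟨j, hj, rfl⟩
      exact (Finset.mem_filter.1 hj).2
    · intro hx
      have h2 : x ∈ Finset.range A.card := Finset.mem_range.2 (by omega)
      rw [← himg, Finset.mem_image] at h2
      obtain ⟨j, hj, rfl⟩ := h2
      exact ⟨j, Finset.mem_filter.2 ⟨hj, hx⟩, rfl⟩
  have h2 := congrArg Finset.card h1
  rw [Finset.card_range, Finset.card_image_of_injOn (hinj.mono (by
    intro x hx; exact (Finset.mem_filter.1 hx).1))] at h2
  exact h2

theorem card_code {c : Hf m} (hc : IsHf c) : (code c).card = m / 2 := by
  classical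
  set A : Finset (Fin m) := {j | c j = none} with hA
  set D : Finset (Fin m) := {j | ∃ k, c j = some k ∧ k < j} with hD
  set E : Finset (Fin m) := {j | ∃ k, c j = some k ∧ j < k} with hE
  have h1 : D.card = E.card := by
    refine Finset.card_bij (fun j hj => (Finset.mem_filter.1 hj).2.choose) ?_ ?_ ?_
    · intro j hj
      have h := (Finset.mem_filter.1 hj).2.choose_spec
      rw [hE, Finset.mem_filter]
      exact ⟨Finset.mem_univ _, j, hc.inv h.1, h.2⟩
    · intro a ha b hb hab
      have h := (Finset.mem_filter.1 ha).2.choose_spec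
      have h' := (Finset.mem_filter.1 hb).2.choose_spec
      have e1 := hc.inv h.1
      have e2 := hc.inv h'.1
      rw [hab, e2] at e1
      exact (Option.some.inj e1).symm
    · intro b hb
      rw [hE, Finset.mem_filter] at hb
      obtain ⟨k, hk, hbk⟩ := hb.2
      have hmem : k ∈ D := by
        rw [hD, Finset.mem_filter]
        exact ⟨Finset.mem_univ _, b, hc.inv hk, hbk⟩
      refine ⟨k, hmem, ?_⟩
      have h := (Finset.mem_filter.1 hmem).2.choose_spec
      exact Option.some.inj (h.1.symm.trans (hc.inv hk))
  have h2 : A.card + D.card + E.card = m := by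
    have e1 : Disjoint A D := by
      rw [Finset.disjoint_left]
      intro j hj hj'
      rw [hA, Finset.mem_filter] at hj
      rw [hD, Finset.mem_filter, hj.2] at hj'
      obtain ⟨_, k, hk, _⟩ := hj'
      exact absurd hk (by simp)
    have e2 : Disjoint (A ∪ D) E := by
      rw [Finset.disjoint_left]
      intro j hj hj'
      rw [hE, Finset.mem_filter] at hj'
      obtain ⟨_, k, hk, hjk⟩ := hj'
      rw [Finset.mem_union, hA, hD, Finset.mem_filter, Finset.mem_filter, hk] at hj
      rcases hj with ⟨_, h⟩ | ⟨_, l, hl, hlj⟩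
      · exact absurd h (by simp)
      · rw [Option.some.inj hl] at hjk
        exact absurd hlj (not_lt.2 hjk.le)
    have e3 : A ∪ D ∪ E = Finset.univ := by
      ext j
      simp only [Finset.mem_union, Finset.mem_univ, iff_true]
      rcases h : c j with _ | k
      · left; left; rw [hA, Finset.mem_filter]; exact ⟨Finset.mem_univ _, h⟩
      · rcases lt_trichotomy k j with h3 | h3 | h3
        · left; right; rw [hD, Finset.mem_filter]; exact ⟨Finset.mem_univ _, k, h, h3⟩
        · rw [h3] at h; exact absurd h hc.ne
        · right; rw [hE, Finset.mem_filter]; exact ⟨Finset.mem_univ _, k, h, h3⟩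
    rw [← Finset.card_union_of_disjoint e1, ← Finset.card_union_of_disjoint e2, e3,
      Finset.card_univ, Fintype.card_fin]
  have h3 : code c = D ∪ {j ∈ A | #{i ∈ A | i < j} < A.card / 2} := by
    ext j
    unfold code
    rw [Finset.mem_filter, Finset.mem_union, hD, Finset.mem_filter, Finset.mem_filter, hA,
      Finset.mem_filter]
    have e1 : rk c j = #{i ∈ ({j | c j = none} : Finset (Fin m)) | i < j} := by
      unfold rk
      congr 1
      ext i
      simp only [Finset.mem_filter, Finset.mem_univ, true_and]
      exact and_comm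
    rw [e1]
    simp only [Finset.mem_univ, true_and]
    rfl
  have h4 : Disjoint D {j ∈ A | #{i ∈ A | i < j} < A.card / 2} := by
    rw [Finset.disjoint_left]
    intro j hj hj'
    rw [Finset.mem_filter, hA, Finset.mem_filter] at hj'
    rw [hD, Finset.mem_filter, hj'.1.2] at hj
    obtain ⟨_, k, hk, _⟩ := hj
    exact absurd hk (by simp)
  rw [h3, Finset.card_union_of_disjoint h4, card_lower (A.card / 2) A (Nat.div_le_self _ _)]
  omega

/-- the number of halves is at most the central binomial coefficient -/
theorem card_halves (S : Finset (Hf m)) (hS : ∀ c ∈ S, IsHf c) : S.card ≤ m.choose (m / 2) := by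
  classical
  have h1 : (S.image code).card = S.card := by
    apply Finset.card_image_of_injOn
    intro c hc c' hc' h
    exact code_inj (hS c hc) (hS c' hc') h
  rw [← h1]
  have h2 : S.image code ⊆ (Finset.univ : Finset (Fin m)).powersetCard (m / 2) := by
    intro x hx
    rw [Finset.mem_image] at hx
    obtain ⟨c, hc, rfl⟩ := hx
    rw [Finset.mem_powersetCard]
    exact ⟨Finset.subset_univ _, card_code (hS c hc)⟩
  refine (Finset.card_le_card h2).trans ?_
  rw [Finset.card_powersetCard, Finset.card_univ, Fintype.card_fin]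

end Q99.SML
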