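import Pool.Agent.Q99.SML2.Main2
import Pool.Agent.Y463.KN.Basic

/-!
# Families of knotoid diagrams
-/

set_option autoImplicit false

open Finset LaurentPolynomial Pool.Agent.H891R2.Jones Pool.Agent.W639.RB Q99.SML

namespace Q99.SML2

/-- the state of a family: pure words do not change the directions -/
theorem family_up {m : ℕ} : ∀ (k : ℕ) (w u : Fin k → Word) (P : ℕ)
    (_ : ∀ j, wperm m (w j) ^ P = 1) (n t : Fin k → ℤ) (O O' : Outer m) (_ : O.up = O'.up),
    (family O w u (n + (P : ℤ) • t)).up = (family O' w u n).up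
  | 0, _, _, _, _, _, _, _, _, h => h
  | k + 1, w, u, P, hw, n, t, O, O', h => by
    rw [family, family]
    have h1 := family_up k (Fin.tail w) (Fin.tail u) P (fun j => hw j.succ) (Fin.tail n)
      (Fin.tail t) (draw (power O (w 0) ((n + (P : ℤ) • t) 0)) (u 0))
      (draw (power O' (w 0) (n 0)) (u 0)) ?_
    · exact h1
    · have hfst : ∀ (x : Word) (s s' : St m), s.1 = s'.1 → (QU m x s).1 = (QU m x s').1 := by
        intro x s s' hs
        rw [QU_fst, QU_fst, hs]
      have e1 : ∀ Q : Outer m, Q.up = (stt Q).1 := fun _ => rfl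
      rw [e1, e1, stt_draw, stt_draw]
      apply hfst
      rw [stt_power, stt_power]
      have hn : (n + (P : ℤ) • t) 0 = n 0 + (P : ℤ) * t 0 := rfl
      obtain ⟨e, _, he⟩ := QU_trans (m := m) (w 0) P (hw 0) (stt O)
      rw [hn, zpow_add, zpow_mul, zpow_natCast, Equiv.Perm.mul_apply, he]
      have hz : ∀ (z : ℤ) (s s' : St m), s.1 = s'.1 → ((QU m (w 0) ^ z) s).1 =
          ((QU m (w 0) ^ z) s').1 := by
        intro z s s' hs
        have hp : ∀ (x : Word) (k : ℕ) (s s' : St m), s.1 = s'.1 → ((QU m x ^ k) s).1 =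
            ((QU m x ^ k) s').1 := by
          intro x k s s' hs
          rw [QU_pow_fst, QU_pow_fst, hs]
        rcases z with z | z
        · exact hp _ _ _ _ hs
        · rw [zpow_negSucc, ← inv_pow, ← QU_invWord]
          exact hp _ _ _ _ hs
      apply hz
      exact h

end Q99.SML2
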