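import Pool.Agent.Q99.SML.Padic

/-!
# Powers of operators which are trivial modulo `p`
-/

set_option autoImplicit false

open Polynomial Finset

namespace Q99.SML2

open Q99.SML

variable {p : ℕ} [hp : Fact p.Prime] {V : Type*} [AddCommGroup V] [Module ℤ_[p] V]

theorem end_seq (B : Module.End ℤ_[p] V) (l : V →ₗ[ℤ_[p]] ℤ_[p]) (v : V) (t : ℕ) :
    l (((1 + (p : ℤ_[p]) • B) ^ t) v) = ser (fun k => l ((B ^ k) v)) t := by
  have h1 : (1 + (p : ℤ_[p]) • B) ^ t =
      ∑ k ∈ Finset.range (t + 1), ((t.choose k : ℤ_[p]) * (p : ℤ_[p]) ^ k) • B ^ k := by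
    rw [add_comm, (Commute.one_right ((p : ℤ_[p]) • B)).add_pow]
    refine Finset.sum_congr rfl fun k _ => ?_
    rw [one_pow, mul_one, _root_.smul_pow, smul_mul_assoc, (Nat.cast_commute _ _).symm.eq,
      ← nsmul_eq_mul, mul_comm, mul_comm ((p : ℤ_[p]) ^ k), mul_smul, Nat.cast_smul_eq_nsmul,
      smul_comm]
  rw [h1, ser, LinearMap.sum_apply, map_sum]
  refine Finset.sum_congr rfl fun k _ => ?_
  rw [LinearMap.smul_apply, map_smul, smul_eq_mul]

theorem phi_end (B : Module.End ℤ_[p] V) (l : V →ₗ[ℤ_[p]] ℤ_[p]) (v : V) (Q : ℤ_[p][X]) :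
    phi (fun k => l ((B ^ k) v)) Q = l (aeval B Q v) := by
  induction Q using Polynomial.induction_on' with
  | add P Q hP hQ => rw [map_add, map_add, hP, hQ, LinearMap.add_apply, map_add]
  | monomial n a =>
    rw [phi_monomial, aeval_monomial, ← Algebra.smul_def, LinearMap.smul_apply, map_smul,
      smul_eq_mul]

theorem end_ann (B : Module.End ℤ_[p] V) (l : V →ₗ[ℤ_[p]] ℤ_[p]) (v : V) (P : ℤ_[p][X])
    (hP : aeval B P = 0) : Ann P (fun k => l ((B ^ k) v)) := by
  intro Q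
  rw [phi_end, map_mul, hP, zero_mul, LinearMap.zero_apply, map_zero]

variable {r : ℕ} {W : Fin r → Type*} [∀ i, AddCommGroup (W i)] [∀ i, Module ℤ_[p] (W i)]

/-- a sum of sequences of powers -/
noncomputable def usq (N : ∀ i, (Module.End ℤ_[p] (W i))ˣ) (l : ∀ i, W i →ₗ[ℤ_[p]] ℤ_[p])
    (v : ∀ i, W i) (g : ℤ_[p]) (n : ℤ) : ℤ_[p] :=
  ∑ i, l i ((N i ^ n : (Module.End ℤ_[p] (W i))ˣ).1 (v i)) - g

theorem base_pt (N : ∀ i, (Module.End ℤ_[p] (W i))ˣ) (l : ∀ i, W i →ₗ[ℤ_[p]] ℤ_[p])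
    (v : ∀ i, W i) (g : ℤ_[p]) (D : Fin r → ℕ)
    (hN : ∀ i, ∃ (B : Module.End ℤ_[p] (W i)) (P : ℤ_[p][X]),
      (N i).1 = 1 + (p : ℤ_[p]) • B ∧ P.Monic ∧ P.natDegree ≤ D i ∧ aeval B P = 0) (s : ℤ) :
    ∃ (b : ℕ → ℤ_[p]) (P : ℤ_[p][X]), P.Monic ∧ P.natDegree ≤ ∑ i, D i + 1 ∧ Ann P b ∧
      ∀ t : ℕ, usq N l v g (s + t) = ser b t := by
  classical
  choose B R hB hR hRD hRB using hN
  let c : Fin r → ℕ → ℤ_[p] := fun i j =>
    (l i ∘ₗ (N i ^ s : (Module.End ℤ_[p] (W i))ˣ).1) ((B i ^ j) (v i))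
  let c0 : ℕ → ℤ_[p] := fun j => if j = 0 then -g else 0
  have hser : ∀ t : ℕ, usq N l v g (s + t) = ∑ i, ser (c i) t + ser c0 t := by
    intro t
    unfold usq
    rw [sub_eq_add_neg]
    congr 1
    · refine Finset.sum_congr rfl fun i _ => ?_
      rw [_root_.zpow_add, zpow_natCast, ← end_seq, ← hB i]
      rfl
    · unfold ser
      rw [Finset.sum_eq_single 0]
      · simp [c0]
      · intro j _ hj
        simp [c0, hj]
      · intro h
        simp at h
  have hann : ∀ (n : ℕ) (hn : n ≤ r), ∃ P : ℤ_[p][X], P.Monic ∧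
      P.natDegree ≤ ∑ i : Fin n, D (Fin.castLE hn i) + 1 ∧
      Ann P (∑ i : Fin n, c (Fin.castLE hn i) + c0) := by
    intro n
    induction n with
    | zero =>
      intro _
      refine ⟨X, monic_X, by rw [natDegree_X]; omega, ?_⟩
      intro Q
      rw [Finset.univ_eq_empty, Finset.sum_empty, zero_add]
      induction Q using Polynomial.induction_on' with
      | add P Q hP hQ => rw [mul_add, map_add, hP, hQ, add_zero]
      | monomial n a =>
        rw [X_mul_monomial, phi_monomial]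
        simp [c0]
    | succ n ih =>
      intro hn
      obtain ⟨P, h1, h2, h3⟩ := ih (by omega)
      refine ⟨P * R ⟨n, by omega⟩, h1.mul (hR _), ?_, ?_⟩
      · rw [h1.natDegree_mul (hR _)]
        have := hRD ⟨n, by omega⟩
        have h6 : ∑ i : Fin (n+1), D (Fin.castLE hn i) =
          ∑ i : Fin n, D (Fin.castLE (by omega) i) + D ⟨n, by omega⟩ := by
          rw [Fin.sum_univ_castSucc]
          rfl
        omega
      · have h4 := h3.add (end_ann (B ⟨n, by omega⟩)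
          (l ⟨n, by omega⟩ ∘ₗ (N ⟨n, by omega⟩ ^ s : (Module.End ℤ_[p] (W ⟨n, by omega⟩))ˣ).1)
          (v ⟨n, by omega⟩) _ (hRB _))
        have h5 : ∑ i : Fin (n+1), c (Fin.castLE hn i) + c0 =
          ∑ i : Fin n, c (Fin.castLE (by omega) i) + c0 + c ⟨n, by omega⟩ := by
          rw [Fin.sum_univ_castSucc]
          have : (Fin.castLE hn (Fin.last n)) = ⟨n, by omega⟩ := rfl
          rw [this]
          have h6 : ∀ i : Fin n, Fin.castLE hn i.castSucc = Fin.castLE (by omega) i := fun i => rfl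
          simp only [h6]
          ring
        rw [h5]
        exact h4
  obtain ⟨P, h1, h2, h3⟩ := hann r le_rfl
  refine ⟨∑ i, c i + c0, P, h1, h2, h3, fun t => ?_⟩
  rw [hser]
  have hadd : ∀ b b' : ℕ → ℤ_[p], ser (b + b') t = ser b t + ser b' t := by
    intro b b'
    unfold ser
    rw [← Finset.sum_add_distrib]
    refine Finset.sum_congr rfl fun j _ => ?_
    rw [Pi.add_apply]; ring
  rw [hadd]
  congr 1
  unfold ser
  rw [Finset.sum_comm]
  refine Finset.sum_congr rfl fun j _ => ?_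
  rw [Finset.sum_apply, Finset.mul_sum]

/-- many zeros: identically zero -/
theorem all_zero (N : ∀ i, (Module.End ℤ_[p] (W i))ˣ) (l : ∀ i, W i →ₗ[ℤ_[p]] ℤ_[p])
    (v : ∀ i, W i) (g : ℤ_[p]) (D : Fin r → ℕ) (hD : ∑ i, D i + 1 < p)
    (hN : ∀ i, ∃ (B : Module.End ℤ_[p] (W i)) (P : ℤ_[p][X]),
      (N i).1 = 1 + (p : ℤ_[p]) • B ∧ P.Monic ∧ P.natDegree ≤ D i ∧ aeval B P = 0)
    (Z : Finset ℤ) (hZ : ∀ t ∈ Z, usq N l v g t = 0) (hc : ∑ i, D i + 1 ≤ Z.card)
    (t : ℤ) : usq N l v g t = 0 := by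
  classical
  have hne : Z.Nonempty := by
    rw [← Finset.card_pos]; omega
  set t0 := min (Z.min' hne) t with ht0
  obtain ⟨b, P, h1, h2, h3, h4⟩ := base_pt N l v g D hN t0
  have hle : ∀ z ∈ Z, t0 ≤ z := fun z hz => (min_le_left _ _).trans (Finset.min'_le _ _ hz)
  have hb : b = 0 := by
    refine zero_of_card b P h1 (by omega) h3 (Z.image (fun z => (z - t0).toNat)) ?_ ?_
    · intro m hm
      rw [Finset.mem_image] at hm
      obtain ⟨z, hz, rfl⟩ := hm
      rw [← h4]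
      have h5 : t0 + (((z - t0).toNat : ℕ) : ℤ) = z := by
        rw [Int.toNat_of_nonneg (by have := hle z hz; omega)]
        ring
      rw [h5]
      exact hZ z hz
    · rw [Finset.card_image_of_injOn]
      · exact h2.trans hc
      · intro x hx y hy hxy
        have e1 := hle x hx
        have e2 := hle y hy
        simp only at hxy
        omega
  have h5 := h4 (t - t0).toNat
  have h6 : t0 + (((t - t0).toNat : ℕ) : ℤ) = t := by
    rw [Int.toNat_of_nonneg (by have := min_le_right (Z.min' hne) t; omega)]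
    ring
  rw [h6, hb] at h5
  rw [h5]
  simp [ser]

end Q99.SML2
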