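import Pool.Agent.Q99.SML2.Rep2
import Pool.Agent.Q99.SML2.Seq
import Pool.Agent.Q99.SML.Box

/-!
# Uniform Skolem-Mahler-Lech theorem for Jones polynomials, with the central binomial coefficient
-/

set_option autoImplicit false

open Finset LaurentPolynomial Pool.Agent.H891R2.Jones Pool.Agent.W639.RB Q99.SML

namespace Q99.SML2

/-! ### families as words -/

theorem draw_append {m : ℕ} (O : Outer m) (u v : Word) : draw O (u ++ v) = draw (draw O u) v :=
  List.foldl_append

theorem iter_word {m : ℕ} (w : Word) : ∀ (n : ℕ) (O : Outer m),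
    (fun O : Outer m => draw O w)^[n] O = draw O (List.replicate n w).flatten := by
  intro n
  induction n with
  | zero => intro O; rfl
  | succ n ih =>
    intro O
    rw [Function.iterate_succ_apply, ih, List.replicate_succ, List.flatten_cons, draw_append]

theorem power_word (m : ℕ) (w : Word) (n : ℤ) : ∃ x : Word, ∀ O : Outer m, power O w n = draw O x := by
  rcases n with n | n
  · exact ⟨_, fun O => iter_word w n O⟩
  · exact ⟨_, fun O => iter_word (invWord w) (n + 1) O⟩

theorem family_word (m : ℕ) : ∀ (k : ℕ) (w u : Fin k → Word) (n : Fin k → ℤ), ∃ x : Word,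
    ∀ O : Outer m, family O w u n = draw O x
  | 0, _, _, _ => ⟨[], fun _ => rfl⟩
  | k + 1, w, u, n => by
    obtain ⟨x, hx⟩ := family_word m k (Fin.tail w) (Fin.tail u) (Fin.tail n)
    obtain ⟨y, hy⟩ := power_word m (w 0) (n 0)
    refine ⟨y ++ (u 0 ++ x), fun O => ?_⟩
    rw [family, hx, hy, draw_append, draw_append]

theorem family_update (m : ℕ) : ∀ (k : ℕ) (w u : Fin k → Word) (n : Fin k → ℤ) (j : Fin k)
    (O : Outer m), ∃ (O' : Outer m) (x : Word), ∀ z : ℤ,
      family O w u (Function.update n j z) = draw (power O' (w j) z) x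
  | 0, _, _, _, j, _ => j.elim0
  | k + 1, w, u, n, j, O => by
    refine Fin.cases ?_ (fun j => ?_) j
    · obtain ⟨x, hx⟩ := family_word m k (Fin.tail w) (Fin.tail u) (Fin.tail n)
      refine ⟨O, u 0 ++ x, fun z => ?_⟩
      rw [family, Fin.tail_update_zero, Function.update_self, hx, draw_append]
    · obtain ⟨O', x, h⟩ := family_update m k (Fin.tail w) (Fin.tail u) (Fin.tail n) j
        (draw (power O (w 0) (n 0)) (u 0))
      refine ⟨O', x, fun z => ?_⟩
      rw [family, Fin.tail_update_succ, Function.update_of_ne (Fin.succ_ne_zero j).symm, h]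
      rfl

/-! ### scalars as units -/

/-- multiplication by a unit -/
def sU {K V : Type*} [CommRing K] [AddCommGroup V] [Module K V] (c : Kˣ) : (Module.End K V)ˣ where
  val := (c : K) • 1
  inv := ((c⁻¹ : Kˣ) : K) • 1
  val_inv := by
    rw [smul_mul_smul_comm, one_mul, ← Units.val_mul, mul_inv_cancel, Units.val_one, one_smul]
  inv_val := by
    rw [smul_mul_smul_comm, one_mul, ← Units.val_mul, inv_mul_cancel, Units.val_one, one_smul]

section

variable {K V : Type*} [CommRing K] [AddCommGroup V] [Module K V]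

theorem sU_apply (c : Kˣ) (v : V) : (sU c : (Module.End K V)ˣ).1 v = (c : K) • v := rfl

theorem sU_comm (c : Kˣ) (u : (Module.End K V)ˣ) : Commute (sU c) u := by
  apply Units.ext
  show ((c : K) • (1 : Module.End K V)) * u.1 = u.1 * ((c : K) • 1)
  rw [smul_mul_assoc, one_mul, mul_smul_comm, mul_one]

theorem sU_mul (c d : Kˣ) : (sU c : (Module.End K V)ˣ) * sU d = sU (c * d) := by
  apply Units.ext
  show ((c : K) • (1 : Module.End K V)) * ((d : K) • 1) = ((c * d : Kˣ) : K) • 1
  rw [smul_mul_smul_comm, one_mul, Units.val_mul]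

theorem sU_zpow (c : Kˣ) (n : ℤ) : (sU c : (Module.End K V)ˣ) ^ n = sU (c ^ n) := by
  have h1 : (sU (1 : Kˣ) : (Module.End K V)ˣ) = 1 := by
    apply Units.ext
    show ((1 : Kˣ) : K) • (1 : Module.End K V) = 1
    rw [Units.val_one, one_smul]
  let φ : Kˣ →* (Module.End K V)ˣ := { toFun := sU, map_one' := h1, map_mul' := fun c d =>
    (sU_mul c d).symm }
  exact (map_zpow φ c n).symm

end

/-! ### the normalised bracket -/

theorem spec_fPoly {K : Type*} [CommRing K] (a : Kˣ) {P : Type} (D : Diagram P) :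
    spec a D.fPoly = ((eta a ^ D.writhe : Kˣ) : K) * spec a D.bracket := by
  unfold Diagram.fPoly
  rw [map_mul, map_mul, spec_T]
  congr 1
  have h2 : (eta a) ^ D.writhe = (-1) ^ D.writhe * a ^ (-3 * D.writhe) := by
    unfold eta
    rw [neg_eq_neg_one_mul, mul_zpow, zpow_mul]
    congr 2
  rw [h2, Units.val_mul]
  congr 1
  by_cases h : Even D.writhe
  · rw [if_pos h, Even.neg_one_zpow h]; simp
  · rw [if_neg h, Odd.neg_one_zpow (Int.not_even_iff_odd.1 h)]; simp

theorem eta_one {K : Type*} [CommRing K] : eta (1 : Kˣ) = -1 := by simp [eta]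

theorem eta_map {K K' : Type*} [CommRing K] [CommRing K'] (φ : K →+* K') (a : Kˣ) :
    Units.map (φ : K →* K') (eta a) = eta (Units.map (φ : K →* K') a) := by
  unfold eta
  apply Units.ext
  simp

/-- the straight filling -/
def st0 (m : ℕ) : NX m := ⟨strt m, NC_strt⟩

/-- the formula along a line -/
theorem value {m : ℕ} (hm : 0 < m) {K : Type*} [CommRing K] (a : Kˣ) (O : Outer m) (w x : Word)
    (P : ℕ) (hP : wperm m w ^ P = 1) (s : ℤ) : ∃ (e : ℤ) (l : (NX m → K) →ₗ[K] K) (v : NX m → K),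
      Even (e - ((idx m w).length * P : ℕ)) ∧ ∀ t : ℤ,
        spec a (draw (power O w (s + P * t)) x).close.fPoly =
          l (((sU (eta a ^ e) * WU a w ^ P) ^ t : (Module.End K (NX m → K))ˣ).1 v) := by
  obtain ⟨e, he, h1⟩ := QU_trans w P hP ((QU m w ^ s) (stt O))
  set s1 := (QU m w ^ s) (stt O) with hs1
  refine ⟨e, ((eta a ^ (QU m x s1).2 : Kˣ) : K) •
    (LinearMap.proj (st0 m) ∘ₗ (WU a x : (Module.End K (NX m → K))ˣ).1),
    (WU a w ^ s : (Module.End K (NX m → K))ˣ).1 (gv a O), he, fun t => ?_⟩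
  rw [spec_fPoly, close_writhe, close_bracket hm]
  have h2 : owr (draw (power O w (s + P * t)) x) = (QU m x s1).2 + t * e := by
    have h3 : (stt (draw (power O w (s + P * t)) x)).2 = (QU m x s1).2 + t * e := by
      rw [stt_draw, stt_power, add_comm s, zpow_add, zpow_mul, zpow_natCast, Equiv.Perm.mul_apply,
        ← hs1, h1 t, QU_shift]
    exact h3
  have h4 : spec a (fill (draw (power O w (s + P * t)) x) (strt m)).bracket =
      (WU a x : (Module.End K (NX m → K))ˣ).1 (((WU a w ^ P) ^ t :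
        (Module.End K (NX m → K))ˣ).1 ((WU a w ^ s : (Module.End K (NX m → K))ˣ).1 (gv a O)))
          (st0 m) := by
    have h5 : spec a (fill (draw (power O w (s + P * t)) x) (strt m)).bracket =
      gv a (draw (power O w (s + P * t)) x) (st0 m) := rfl
    rw [h5, gv_draw hm, gv_power hm, add_comm s, zpow_add, zpow_mul, zpow_natCast, Units.val_mul]
    rfl
  have h6 : ((sU (eta a ^ e) * WU a w ^ P) ^ t : (Module.End K (NX m → K))ˣ) =
      sU (eta a ^ (t * e)) * (WU a w ^ P) ^ t := by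
    rw [(sU_comm _ _).mul_zpow, sU_zpow, ← zpow_mul, mul_comm e t]
  rw [h2, h4, h6, Units.val_mul, Module.End.mul_apply, sU_apply, LinearMap.smul_apply,
    LinearMap.comp_apply, map_smul, map_smul, smul_eq_mul, smul_eq_mul, ← mul_assoc, zpow_add,
    Units.val_mul]
  rfl

/-- the operator of a line is trivial modulo `p` -/
theorem trivial_mod {m : ℕ} {p : ℕ} [Fact p.Prime] (a : ℤ_[p]ˣ)
    (hmod : PadicInt.toZMod (a : ℤ_[p]) = 1) (w : Word) (P : ℕ) (hP : wperm m w ^ P = 1) (e : ℤ)
    (he : Even (e - ((idx m w).length * P : ℕ))) :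
    ∃ B : Module.End ℤ_[p] (NX m → ℤ_[p]),
      (sU (eta a ^ e) * WU a w ^ P : (Module.End ℤ_[p] (NX m → ℤ_[p]))ˣ).1 =
        1 + (p : ℤ_[p]) • B := by
  set N := (sU (eta a ^ e) * WU a w ^ P : (Module.End ℤ_[p] (NX m → ℤ_[p]))ˣ).1 with hN
  have ha1 : Units.map ((PadicInt.toZMod (p := p) : ℤ_[p] →+* ZMod p) : ℤ_[p] →* ZMod p) a = 1 := by
    apply Units.ext
    exact hmod
  have key : ∀ (v : NX m → ℤ_[p]) (f : NX m), ∃ y, N v f - v f = (p : ℤ_[p]) * y := by
    intro v f
    have h1 : PadicInt.toZMod (N v f - v f) = 0 := by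
      have h2 := congrFun (WU_pow_map (m := m) (PadicInt.toZMod (p := p)) a w P v) f
      rw [ha1, WU_pow_one w P hP, mo_pow_apply, Pi.smul_apply, smul_eq_mul] at h2
      have h3 : N v f = ((eta a ^ e : ℤ_[p]ˣ) : ℤ_[p]) *
          (WU a w ^ P : (Module.End ℤ_[p] (NX m → ℤ_[p]))ˣ).1 v f := rfl
      have h4 : PadicInt.toZMod ((eta a ^ e : ℤ_[p]ˣ) : ℤ_[p]) = (((-1) ^ e : (ZMod p)ˣ) : ZMod p) := by
        have h5 : Units.map ((PadicInt.toZMod (p := p) : ℤ_[p] →+* ZMod p) : ℤ_[p] →* ZMod p)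
            (eta a ^ e) = (-1) ^ e := by
          rw [map_zpow, eta_map, ha1, eta_one]
        exact congrArg Units.val h5
      rw [map_sub, h3, map_mul, h4, h2, ← mul_assoc]
      have h6 : (((-1) ^ e : (ZMod p)ˣ) : ZMod p) * (-1) ^ ((idx m w).length * P) = 1 := by
        have h7 : ((-1 : (ZMod p)ˣ) ^ e) * (-1) ^ (((idx m w).length * P : ℕ) : ℤ) = 1 := by
          rw [← zpow_add]
          apply Even.neg_one_zpow
          have : e + (((idx m w).length * P : ℕ) : ℤ) =
            (e - (((idx m w).length * P : ℕ) : ℤ)) + 2 * (((idx m w).length * P : ℕ) : ℤ) := by ring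
          rw [this]
          exact he.add (even_two_mul _)
        have h8 := congrArg Units.val h7
        rw [zpow_natCast, Units.val_mul, Units.val_pow_eq_pow_val, Units.val_neg, Units.val_one]
          at h8
        exact h8
      rw [h6, one_mul, sub_self]
    rw [← RingHom.mem_ker, PadicInt.ker_toZMod, PadicInt.maximalIdeal_eq_span_p,
      Ideal.mem_span_singleton] at h1
    exact h1
  choose b hb using key
  have hb' : ∀ v f, (p : ℤ_[p]) * b v f = N v f - v f := fun v f => (hb v f).symm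
  refine ⟨{ toFun := b, map_add' := ?_, map_smul' := ?_ }, ?_⟩
  · intro v v'
    funext f
    apply mul_left_cancel₀ (p_ne (p := p))
    rw [Pi.add_apply, mul_add, hb', hb', hb', map_add, Pi.add_apply, Pi.add_apply]
    ring
  · intro c v
    funext f
    apply mul_left_cancel₀ (p_ne (p := p))
    rw [RingHom.id_apply, Pi.smul_apply, smul_eq_mul, mul_left_comm, hb', hb', map_smul,
      Pi.smul_apply, Pi.smul_apply, smul_eq_mul, smul_eq_mul]
    ring
  · apply LinearMap.ext
    intro v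
    funext f
    show N v f = v f + (p : ℤ_[p]) * b v f
    rw [hb']
    ring

theorem line {r k : ℕ} {m : Fin r → ℕ} (hm : ∀ i, 0 < m i) (O : ∀ i, Outer (m i))
    (w u : Fin r → Fin k → Word)
    (c : Fin r → ℤ[T;T⁻¹]) (g : ℤ[T;T⁻¹]) (P : ℕ) (n : Fin k → ℤ) (j : Fin k)
    (hP : ∀ i, wperm (m i) (w i j) ^ P = 1) (s : ℤ) (Z : Finset ℤ)
    (hZ : ∀ z ∈ Z, ∑ i, c i * (family (O i) (w i) (u i)
      (Function.update n j (s + P * z))).close.fPoly = g)
    (hc : ∑ i, (m i).choose (m i / 2) + 1 ≤ Z.card) (z : ℤ) :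
    ∑ i, c i * (family (O i) (w i) (u i) (Function.update n j (s + P * z))).close.fPoly = g := by
  classical
  obtain ⟨p, hpr, hp⟩ := Nat.exists_infinite_primes (∑ i, (m i).choose (m i / 2) + 2)
  have : Fact (Nat.Prime p) := ⟨hp⟩
  obtain ⟨a, ha, hmod⟩ := exists_embedding p
  choose O' x hx using fun i => family_update (m i) k (w i) (u i) n j (O i)
  choose e l v he hval using fun i => value (hm i) a (O' i) (w i j) (x i) P (hP i) s
  choose B hB using fun i => trivial_mod (m := m i) a hmod (w i j) P (hP i) (e i) (he i)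
  let N : ∀ i, (Module.End ℤ_[p] (NX (m i) → ℤ_[p]))ˣ := fun i =>
    sU (eta a ^ (e i)) * WU a (w i j) ^ P
  let l' : ∀ i, (NX (m i) → ℤ_[p]) →ₗ[ℤ_[p]] ℤ_[p] := fun i => spec a (c i) • l i
  have key : ∀ t : ℤ, usq N l' v (spec a g) t =
      spec a (∑ i, c i * (family (O i) (w i) (u i) (Function.update n j (s + P * t))).close.fPoly
        - g) := by
    intro t
    unfold usq
    rw [map_sub, map_sum]
    congr 1
    refine Finset.sum_congr rfl fun i _ => ?_
    rw [map_mul, hx i, hval i t]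
    rfl
  have hiff : ∀ t : ℤ, usq N l' v (spec a g) t = 0 ↔
      ∑ i, c i * (family (O i) (w i) (u i) (Function.update n j (s + P * t))).close.fPoly = g := by
    intro t
    rw [key, map_eq_zero_iff _ ha, sub_eq_zero]
  rw [← hiff]
  refine all_zero N l' v (spec a g) (fun i => (m i).choose (m i / 2)) (by omega) (fun i => ?_) Z
    (fun t ht => (hiff t).2 (hZ t ht)) hc z
  have hcell : Cellular (N i).1 := by
    show Cellular ((sU (eta a ^ e i) : (Module.End ℤ_[p] (NX (m i) → ℤ_[p]))ˣ).1 *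
      (WU a (w i j) ^ P : (Module.End ℤ_[p] (NX (m i) → ℤ_[p]))ˣ).1)
    rw [Units.val_pow_eq_pow_val]
    exact (Cellular.one.smul _).mul ((WU_cellular a (w i j)).pow P)
  obtain ⟨R, h1, h2, h3⟩ := (hcell.div (p : ℤ_[p]) p_ne (hB i)).ann
  exact ⟨B i, R, hB i, h1, h2, h3⟩

theorem main {r k : ℕ} {m : Fin r → ℕ} (hm : ∀ i, 0 < m i) (O : ∀ i, Outer (m i))
    (w u : Fin r → Fin k → Word)
    (c : Fin r → ℤ[T;T⁻¹]) (g : ℤ[T;T⁻¹]) (P : ℕ) (hpos : 0 < P)
    (hP : ∀ i j, wperm (m i) (w i j) ^ P = 1) (A : Fin k → Finset ℤ) (Bad : Finset (Fin k → ℤ))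
    (hBad : ∀ n ∈ Bad, (∀ j, n j ∈ A j) ∧
      ∑ i, c i * (family (O i) (w i) (u i) n).close.fPoly = g ∧
      ∃ t : Fin k → ℤ, ¬ ∑ i, c i * (family (O i) (w i) (u i) (n + (P : ℤ) • t)).close.fPoly = g) :
    Bad.card ≤ (∑ i, (m i).choose (m i / 2)) * P * ∑ j, ∏ i ∈ univ.erase j, (A i).card := by
  rw [← faces_eq]
  exact box_count P hpos (∑ i, (m i).choose (m i / 2)) k
    (fun n => ∑ i, c i * (family (O i) (w i) (u i) n).close.fPoly = g)
    (fun n j s Z hZ hc z => line hm O w u c g P n j (fun i => hP i j) s Z hZ hc z) A Bad hBad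

end Q99.SML2
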