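import Pool.Agent.Q99.SML.Match

/-!
# Noncrossing matchings

The `2 m` end points of the box are arranged on its boundary; noncrossing matchings are preserved by
cups and caps, and a noncrossing matching is determined by its lower and its upper half.
-/

set_option autoImplicit false

open Finset LaurentPolynomial Pool.Agent.H891R2.Jones

namespace Q99.SML

variable {m : ℕ}

/-- the position of an end point on the boundary of the box -/
def pos : Pt m → ℕ
  | .inl j => j
  | .inr j => 2 * m - 1 - j

theorem pos_inj : Function.Injective (pos : Pt m → ℕ) := by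
  rintro (a | a) (b | b) h <;> simp only [pos] at h
  · rw [Fin.ext h]
  · omega
  · omega
  · have : (a : ℕ) = b := by omega
    rw [Fin.ext this]

theorem pne {a b : Pt m} (h : a ≠ b) : pos a ≠ pos b := fun e => h (pos_inj e)

/-- `y` lies strictly between `x` and `x'` -/
def Btw (x x' y : Pt m) : Prop :=
  (pos x < pos y ∧ pos y < pos x') ∨ (pos x' < pos y ∧ pos y < pos x)

/-- noncrossing matchings -/
def NC (f : Mt m) : Prop := ∀ x y, Btw x (f.1 x) y → Btw x (f.1 x) (f.1 y)

theorem NC.iff {f : Mt m} (h : NC f) (x y : Pt m) : Btw x (f.1 x) y ↔ Btw x (f.1 x) (f.1 y) := by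
  constructor
  · exact h x y
  · intro h1
    have h2 := h x (f.1 y) h1
    rwa [f.inv] at h2

theorem NC_strt : NC (strt m) := by
  rintro (x | x) (y | y) h <;> unfold Btw at * <;> simp only [pos, strt, Equiv.sumComm_apply,
    Sum.swap_inl, Sum.swap_inr] at * <;> omega

theorem NC_tau {p q : Fin m} (hpq : (q : ℕ) = p + 1) (f : Mt m) (hf : NC f) :
    NC (tau p q f) := by
  have hne : p ≠ q := fun e => by rw [e] at hpq; omega
  by_cases hX : f.1 (.inl p) = .inl q
  · rw [tau_of_eq f hX]; exact hf
  have hP : pos (.inl q : Pt m) = pos (.inl p : Pt m) + 1 := hpq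
  have hYp : f.1 (.inl q) ≠ .inl p := fun e => hX (by rw [← e, f.inv])
  have hXY : f.1 (.inl p) ≠ f.1 (.inl q) := fun e => hne (Sum.inl.inj (f.1.injective e))
  have n1 := pne (f.2.2 (.inl p))
  have n2 := pne hX
  have n3 := pne hYp
  have n4 := pne (f.2.2 (.inl q))
  have n5 := pne hXY
  -- values
  have tp := tau_p hne f
  have tq := tau_q hne f
  have tX := tau_fp hne f
  have tY := tau_fq hne f
  have tO := tau_other (p := p) (q := q) f
  have ff : ∀ a, a ≠ .inl p → a ≠ .inl q → a ≠ f.1 (.inl p) → a ≠ f.1 (.inl q) →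
      pos (f.1 a) ≠ pos (.inl p : Pt m) ∧ pos (f.1 a) ≠ pos (.inl q : Pt m) ∧
      pos (f.1 a) ≠ pos (f.1 (.inl p)) ∧ pos (f.1 a) ≠ pos (f.1 (.inl q)) := by
    intro a h1 h2 h3 h4
    refine ⟨fun e => h3 ?_, fun e => h4 ?_, fun e => h1 (f.1.injective (pos_inj e)),
      fun e => h2 (f.1.injective (pos_inj e))⟩
    · rw [← pos_inj e, f.inv]
    · rw [← pos_inj e, f.inv]
  intro x y
  by_cases x1 : x = .inl p
  · rw [x1, tp]; unfold Btw; intro h; omega
  by_cases x2 : x = .inl q
  · rw [x2, tq]; unfold Btw; intro h; omega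
  have x1' := pne x1
  have x2' := pne x2
  by_cases x3 : x = f.1 (.inl p)
  · rw [x3, tX]
    by_cases y1 : y = .inl p
    · rw [y1, tp]; unfold Btw; intro h; omega
    by_cases y2 : y = .inl q
    · rw [y2, tq]; unfold Btw; intro h; omega
    by_cases y3 : y = f.1 (.inl p)
    · rw [y3, tX]; unfold Btw; intro h; omega
    by_cases y4 : y = f.1 (.inl q)
    · rw [y4, tY]; unfold Btw; intro h; omega
    rw [tO y y1 y2 y3 y4]
    have i1 := hf.iff (.inl p) y
    have i2 := hf.iff (.inl q) y
    obtain ⟨g1, g2, g3, g4⟩ := ff y y1 y2 y3 y4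
    have y1' := pne y1
    have y2' := pne y2
    have y3' := pne y3
    have y4' := pne y4
    unfold Btw at *
    intro h
    omega
  by_cases x4 : x = f.1 (.inl q)
  · rw [x4, tY]
    by_cases y1 : y = .inl p
    · rw [y1, tp]; unfold Btw; intro h; omega
    by_cases y2 : y = .inl q
    · rw [y2, tq]; unfold Btw; intro h; omega
    by_cases y3 : y = f.1 (.inl p)
    · rw [y3, tX]; unfold Btw; intro h; omega
    by_cases y4 : y = f.1 (.inl q)
    · rw [y4, tY]; unfold Btw; intro h; omega
    rw [tO y y1 y2 y3 y4]
    have i1 := hf.iff (.inl p) y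
    have i2 := hf.iff (.inl q) y
    obtain ⟨g1, g2, g3, g4⟩ := ff y y1 y2 y3 y4
    have y1' := pne y1
    have y2' := pne y2
    have y3' := pne y3
    have y4' := pne y4
    unfold Btw at *
    intro h
    omega
  rw [tO x x1 x2 x3 x4]
  obtain ⟨k1, k2, k3, k4⟩ := ff x x1 x2 x3 x4
  have x3' := pne x3
  have x4' := pne x4
  by_cases y1 : y = .inl p
  · rw [y1, tp]; unfold Btw; intro h; omega
  by_cases y2 : y = .inl q
  · rw [y2, tq]; unfold Btw; intro h; omega
  by_cases y3 : y = f.1 (.inl p)
  · rw [y3, tX]
    have i1 := hf.iff x (.inl p)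
    have i2 := hf.iff x (.inl q)
    unfold Btw at *
    intro h
    omega
  by_cases y4 : y = f.1 (.inl q)
  · rw [y4, tY]
    have i1 := hf.iff x (.inl p)
    have i2 := hf.iff x (.inl q)
    unfold Btw at *
    intro h
    omega
  rw [tO y y1 y2 y3 y4]
  exact hf x y

/-! ### the two halves -/

/-- half of a matching: partners of lower points; `none`: the strand goes through -/
abbrev Hf (m : ℕ) : Type := Fin m → Option (Fin m)

def lowv (f : Mt m) : Hf m := fun j => (f.1 (.inl j)).elim some (fun _ => none)

def uppv (f : Mt m) : Hf m := fun j => (f.1 (.inr j)).elim (fun _ => none) some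

theorem lowv_some {f : Mt m} {j k : Fin m} : lowv f j = some k ↔ f.1 (.inl j) = .inl k := by
  unfold lowv
  rcases f.1 (.inl j) with a | a
  · simp
  · simp

theorem lowv_none {f : Mt m} {j : Fin m} : lowv f j = none ↔ ∃ k, f.1 (.inl j) = .inr k := by
  unfold lowv
  rcases f.1 (.inl j) with a | a
  · simp
  · simp

theorem uppv_some {f : Mt m} {j k : Fin m} : uppv f j = some k ↔ f.1 (.inr j) = .inr k := by
  unfold uppv
  rcases f.1 (.inr j) with a | a
  · simp
  · simp

theorem uppv_none {f : Mt m} {j : Fin m} : uppv f j = none ↔ ∃ k, f.1 (.inr j) = .inl k := by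
  unfold uppv
  rcases f.1 (.inr j) with a | a
  · simp
  · simp

/-- through strands are not covered by arcs; through strands do not cross -/
theorem NC.through {f : Mt m} (h : NC f) {i j k l : Fin m} (h1 : f.1 (.inl i) = .inr k)
    (h2 : f.1 (.inl j) = .inr l) (hij : i < j) : k < l := by
  have h3 := h.iff (.inl i) (.inl j)
  rw [h1, h2] at h3
  unfold Btw at h3
  simp only [pos] at h3
  have hne : k ≠ l := by
    intro e
    rw [← e] at h2
    have := f.1.injective (h1.trans h2.symm)
    exact hij.ne (Sum.inl.inj this)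
  have := Fin.lt_def.1 hij
  have h4 : (k : ℕ) ≠ l := fun e => hne (Fin.ext e)
  apply Fin.lt_def.2
  omega

/-- a noncrossing matching is determined by its two halves -/
theorem halves_inj {f g : Mt m} (hf : NC f) (hg : NC g) (h1 : lowv f = lowv g)
    (h2 : uppv f = uppv g) : f = g := by
  -- through strands
  have key : ∀ (n : ℕ) (j : Fin m), (j : ℕ) = n → lowv f j = none → f.1 (.inl j) = g.1 (.inl j) := by
    intro n
    induction n using Nat.strong_induction_on with
    | _ n ih =>
      intro j hj hn
      obtain ⟨k, hk⟩ := lowv_none.1 hn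
      obtain ⟨k', hk'⟩ := lowv_none.1 (h1 ▸ hn)
      rw [hk, hk']
      congr 1
      by_contra hne
      rcases lt_or_gt_of_ne hne with hlt | hlt
      · -- k < k'
        have h3 : uppv f k = none := uppv_none.2 ⟨j, by rw [← hk, f.inv]⟩
        rw [h2] at h3
        obtain ⟨i, hi⟩ := uppv_none.1 h3
        have hi' : g.1 (.inl i) = .inr k := by rw [← hi, g.inv]
        have hij : i < j := by
          rcases lt_trichotomy i j with h | h | h
          · exact h
          · rw [h, hk'] at hi'
            exact absurd (Sum.inr.inj hi').symm hne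
          · have := hg.through hk' hi' h
            exact absurd this (not_lt.2 hlt.le)
        have h5 : lowv f i = none := by rw [h1]; exact lowv_none.2 ⟨k, hi'⟩
        have h6 := ih i (by rw [← hj]; exact hij) i rfl h5
        rw [hi', ← hk] at h6
        exact hij.ne (Sum.inl.inj (f.1.injective h6))
      · have h3 : uppv g k' = none := uppv_none.2 ⟨j, by rw [← hk', g.inv]⟩
        rw [← h2] at h3
        obtain ⟨i, hi⟩ := uppv_none.1 h3
        have hi' : f.1 (.inl i) = .inr k' := by rw [← hi, f.inv]
        have hij : i < j := by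
          rcases lt_trichotomy i j with h | h | h
          · exact h
          · rw [h, hk] at hi'
            exact absurd (Sum.inr.inj hi') hne
          · have := hf.through hk hi' h
            exact absurd this (not_lt.2 hlt.le)
        have h5 : lowv f i = none := lowv_none.2 ⟨k', hi'⟩
        have h6 := ih i (by rw [← hj]; exact hij) i rfl h5
        rw [hi', ← hk'] at h6
        exact hij.ne (Sum.inl.inj (g.1.injective h6.symm))
  have keyl : ∀ j, f.1 (.inl j) = g.1 (.inl j) := by
    intro j
    rcases h : lowv f j with _ | k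
    · exact key j j rfl h
    · rw [lowv_some.1 h]
      rw [h1] at h
      exact (lowv_some.1 h).symm
  apply Subtype.ext
  apply Equiv.ext
  rintro (j | j)
  · exact keyl j
  · rcases h : uppv f j with _ | k
    · obtain ⟨i, hi⟩ := uppv_none.1 h
      have h3 := keyl i
      rw [← hi, f.inv] at h3
      conv_rhs => rw [h3, g.inv]
    · rw [uppv_some.1 h]
      rw [h2] at h
      exact (uppv_some.1 h).symm

end Q99.SML
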