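import Pool.Agent.Q99.SML2.Cell
import Pool.Agent.Q99.SML.Cox
import Pool.Agent.Q99.SML.Embed
import Pool.Agent.Q99.SML.Defs

/-!
# The representation on noncrossing matchings
-/

set_option autoImplicit false

open Finset LaurentPolynomial Pool.Agent.H891R2.Jones Pool.Agent.W639.RB

namespace Q99.SML2

open Q99.SML

variable {m : ℕ} {K : Type*} [CommRing K]

/-- the unit `-a^{-3}` -/
def eta (a : Kˣ) : Kˣ := -(a⁻¹ ^ 3)

/-- the value of a closed component -/
def dd (a : Kˣ) : K := -((a ^ (2:ℤ) : Kˣ) : K) - ((a ^ (-2:ℤ) : Kˣ) : K)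

/-- the cup-cap operators, `0` outside the range -/
noncomputable def eN (m : ℕ) (K : Type*) [CommRing K] (d : K) (i : ℕ) : Module.End K (NX m → K) :=
  if h : i + 1 < m then En d i h else 0

theorem eN_pos (d : K) (i : ℕ) (h : i + 1 < m) : eN m K d i = En d i h := dif_pos h

theorem En_sq (d : K) (i : ℕ) (h : i + 1 < m) : En d i h * En d i h = d • En (K := K) d i h := by
  apply LinearMap.ext
  intro g
  funext f
  obtain ⟨h1, h2⟩ := rel_sq i h f.1
  have h2' : tN i h (tN i h f) = tN i h f := Subtype.ext h2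
  have h1' : bI i h (tN i h f).1 = 1 := h1
  rw [Module.End.mul_apply, LinearMap.smul_apply, Pi.smul_apply, En_apply, En_apply, En_apply,
    smul_eq_mul, h1', h2']
  ring

theorem eN_TL {K : Type*} [Field K] (d : K) : IsTL m d (eN m K d) where
  sq i hi := by rw [eN_pos d i hi, En_sq]
  up i hi := by
    rw [eN_pos d i (by omega), eN_pos d (i+1) (by omega)]
    apply LinearMap.ext
    intro g
    funext f
    obtain ⟨h1, h2⟩ := rel_up i hi f.1
    have h2' : tN i (by omega) (tN (i+1) hi (tN i (by omega) f)) = tN i (by omega) f :=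
      Subtype.ext h2
    rw [Module.End.mul_apply, Module.End.mul_apply, En_apply, En_apply, En_apply, En_apply, h2']
    conv_rhs => rw [← h1]
    rw [pow_add, pow_add]
    show _ = _ * _ * _ * _
    rw [mul_assoc, mul_assoc]
    rfl
  down i hi := by
    rw [eN_pos d i (by omega), eN_pos d (i+1) (by omega)]
    apply LinearMap.ext
    intro g
    funext f
    obtain ⟨h1, h2⟩ := rel_down i hi f.1
    have h2' : tN (i+1) hi (tN i (by omega) (tN (i+1) hi f)) = tN (i+1) hi f := Subtype.ext h2
    rw [Module.End.mul_apply, Module.End.mul_apply, En_apply, En_apply, En_apply, En_apply, h2']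
    conv_rhs => rw [← h1]
    rw [pow_add, pow_add]
    show _ = _ * _ * _ * _
    rw [mul_assoc, mul_assoc]
    rfl
  far i j hj hij := by
    rw [eN_pos d i (by omega), eN_pos d j hj]
    apply LinearMap.ext
    intro g
    funext f
    obtain ⟨h1, h2⟩ := rel_far i j hj hij f.1
    have h2' : tN i (by omega) (tN j hj f) = tN j hj (tN i (by omega) f) := Subtype.ext h2
    rw [Module.End.mul_apply, Module.End.mul_apply, En_apply, En_apply, En_apply, En_apply, ← h2',
      ← mul_assoc, ← mul_assoc, ← pow_add, ← pow_add]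
    congr 2
    exact h1.symm

/-- the action of a letter -/
noncomputable def Lf (a : Kˣ) (b : Bool) (i : ℕ) : Module.End K (NX m → K) :=
  if h : i + 1 < m then ((a ^ (sgb b) : Kˣ) : K) • 1 + ((a ^ (- sgb b) : Kˣ) : K) • En (dd a) i h
  else 1

theorem Lf_pos (a : Kˣ) (b : Bool) (i : ℕ) (h : i + 1 < m) : Lf (m := m) a b i =
    ((a ^ (sgb b) : Kˣ) : K) • 1 + ((a ^ (- sgb b) : Kˣ) : K) • En (dd a) i h := dif_pos h

theorem Lf_cellular (a : Kˣ) (b : Bool) (i : ℕ) : Cellular (Lf (m := m) a b i) := by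
  by_cases h : i + 1 < m
  · rw [Lf_pos a b i h]
    exact (Cellular.one.smul _).add ((Cellular.En _ i h).smul _)
  · unfold Lf
    rw [dif_neg h]
    exact Cellular.one

theorem sgb_not (b : Bool) : sgb (!b) = - sgb b := by cases b <;> simp [sgb]

theorem Lf_mul (a : Kˣ) (b : Bool) (i : ℕ) :
    Lf (m := m) a b i * Lf a (!b) i = 1 := by
  by_cases h : i + 1 < m
  · rw [Lf_pos a b i h, Lf_pos a (!b) i h, sgb_not, neg_neg]
    have e2 : ((a ^ (sgb b) : Kˣ) : K) * ((a ^ (- sgb b) : Kˣ) : K) = 1 := by
      rw [← Units.val_mul, ← zpow_add]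
      simp
    have e3 : dd a = -(((a ^ (sgb b) : Kˣ) : K) ^ 2) - ((a ^ (- sgb b) : Kˣ) : K) ^ 2 := by
      unfold dd
      rw [← Units.val_pow_eq_pow_val, ← Units.val_pow_eq_pow_val, ← zpow_natCast, ← zpow_natCast,
        ← zpow_mul, ← zpow_mul]
      cases b
      · simp only [sgb, Bool.false_eq_true, if_false]
        norm_num
        ring
      · simp only [sgb, if_true]
        norm_num
    have e4 := En_sq (dd a) i h
    set P := ((a ^ (sgb b) : Kˣ) : K)
    set Q := ((a ^ (- sgb b) : Kˣ) : K)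
    set E := En (dd a) i h
    have e5 : (P • (1 : Module.End K (NX m → K)) + Q • E) * (Q • 1 + P • E) =
        (P * Q) • 1 + (P * P + Q * Q) • E + (P * Q) • (E * E) := by
      simp only [add_mul, mul_add, smul_mul_assoc, mul_smul_comm, one_mul, mul_one, smul_smul,
        smul_add, add_smul]
      rw [mul_comm Q P]
      abel
    rw [e5, e4, e2, one_smul, one_smul, add_assoc, ← add_smul]
    have e6 : P * P + Q * Q + dd a = 0 := by rw [e3]; ring
    rw [e6, zero_smul, add_zero]
  · unfold Lf
    rw [dif_neg h, dif_neg h, one_mul]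

/-- the letters as invertible maps -/
noncomputable def LU (a : Kˣ) (x : Bool × ℕ) : (Module.End K (NX m → K))ˣ where
  val := Lf a x.1 x.2
  inv := Lf a (!x.1) x.2
  val_inv := Lf_mul a x.1 x.2
  inv_val := by
    have := Lf_mul (m := m) a (!x.1) x.2
    rwa [Bool.not_not] at this

/-- the words as invertible maps -/
noncomputable def WU (a : Kˣ) : List (Bool × ℕ) → (Module.End K (NX m → K))ˣ
  | [] => 1
  | (x :: w) => WU a w * LU a x

theorem WU_cellular (a : Kˣ) (w : Word) :
    Cellular (WU a w : (Module.End K (NX m → K))ˣ).1 := by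
  induction w with
  | nil => exact Cellular.one
  | cons x w ih => exact ih.mul (Lf_cellular a x.1 x.2)

theorem WU_append (a : Kˣ) (u v : List (Bool × ℕ)) :
    WU (m := m) a (u ++ v) = WU a v * WU a u := by
  induction u with
  | nil => simp [WU]
  | cons x u ih => rw [List.cons_append, WU, ih, WU, mul_assoc]

theorem LU_not (a : Kˣ) (x : Bool × ℕ) : LU (m := m) a (!x.1, x.2) = (LU a x)⁻¹ := by
  apply Units.ext
  rfl

theorem WU_invWord (a : Kˣ) (w : List (Bool × ℕ)) :
    WU (m := m) a (invWord w) = (WU a w)⁻¹ := by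
  induction w with
  | nil => simp [WU, invWord]
  | cons x w ih =>
    have h : invWord (x :: w) = invWord w ++ [(!x.1, x.2)] := by
      simp [invWord]
    rw [h, WU_append, ih]
    simp only [WU, one_mul, mul_inv_rev, LU_not]

/-! ### the value `a = 1` -/

theorem Lf_one {K : Type*} [Field K] (b : Bool) (i : ℕ) (h : i + 1 < m) :
    Lf (m := m) (1 : Kˣ) b i = sg (1 : K) (eN m K (dd (1 : Kˣ))) i := by
  rw [Lf_pos (1 : Kˣ) b i h]
  unfold sg
  rw [eN_pos _ i h]
  simp

/-- minus one -/
def mo (m : ℕ) (K : Type*) [CommRing K] : (Module.End K (NX m → K))ˣ where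
  val := -1
  inv := -1
  val_inv := by
    apply LinearMap.ext
    intro g
    exact neg_neg g
  inv_val := by
    apply LinearMap.ext
    intro g
    exact neg_neg g

theorem mo_mo : mo m K * mo m K = 1 := by
  apply Units.ext
  apply LinearMap.ext
  intro g
  exact neg_neg g

theorem mo_inv : (mo m K)⁻¹ = mo m K := rfl

theorem mo_comm (u : (Module.End K (NX m → K))ˣ) : mo m K * u = u * mo m K := by
  apply Units.ext
  apply LinearMap.ext
  intro g
  show -(u.1 g) = u.1 (-g)
  exact (map_neg _ _).symm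

theorem mo2 (u v : (Module.End K (NX m → K))ˣ) : (mo m K * u) * (mo m K * v) = u * v := by
  rw [mo_comm u, mul_assoc, ← mul_assoc (mo m K), mo_mo, one_mul]

theorem mo_pow_apply (n : ℕ) (v : NX m → K) : (mo m K ^ n).1 v = (-1 : K) ^ n • v := by
  induction n with
  | zero => rw [pow_zero, pow_zero, one_smul]; rfl
  | succ n ih =>
    rw [pow_succ', Units.val_mul, Module.End.mul_apply, ih]
    show -((-1 : K) ^ n • v) = _
    rw [pow_succ', neg_one_mul, neg_smul]

/-- at `a = 1` the negatives of the letters are involutions satisfying the braid relations -/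
theorem cox_LU {K : Type*} [Field K] :
    Cox (m - 1) (fun i => mo m K * LU (m := m) (1 : Kˣ) (true, i)) := by
  have hA : (1 : K) ≠ 0 := one_ne_zero
  have hd : dd (1 : Kˣ) = -(1 : K) ^ 2 - (1 : K)⁻¹ ^ 2 := by simp [dd]
  have hTL := eN_TL (m := m) (dd (1 : Kˣ))
  refine ⟨fun i hi => ?_, fun i hi => ?_, fun i j hj hij => ?_⟩
  · rw [mo2]
    apply Units.ext
    have h1 : Lf (m := m) (1 : Kˣ) true i = Lf (1 : Kˣ) (!true) i := by
      rw [Lf_one true i (by omega), Lf_one (!true) i (by omega)]
    show Lf (m := m) (1 : Kˣ) true i * Lf (1 : Kˣ) true i = 1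
    conv_lhs => rw [h1]
    have := Lf_mul (m := m) (1 : Kˣ) (!true) i
    rwa [Bool.not_not, h1] at this
  · rw [mo2, mo2, ← mul_assoc, ← mul_assoc, ← mo_comm, ← mo_comm, mul_assoc (mo m K),
      mul_assoc (mo m K)]
    congr 1
    apply Units.ext
    show Lf (m := m) (1 : Kˣ) true i * Lf (1 : Kˣ) true (i+1) * Lf (1 : Kˣ) true i =
      Lf (m := m) (1 : Kˣ) true (i+1) * Lf (1 : Kˣ) true i * Lf (1 : Kˣ) true (i+1)
    rw [Lf_one true i (by omega), Lf_one true (i+1) (by omega)]
    exact braid hA hd hTL i (by omega)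
  · rw [mo2, mo2]
    apply Units.ext
    show Lf (m := m) (1 : Kˣ) true i * Lf (1 : Kˣ) true j =
      Lf (m := m) (1 : Kˣ) true j * Lf (1 : Kˣ) true i
    rw [Lf_one true i (by omega), Lf_one true j (by omega)]
    exact far_ss (A := (1 : K)) hTL i j (by omega) hij

/-- the valid indices of a word -/
def idx (m : ℕ) (w : Word) : List ℕ := (w.filter (fun x => x.2 + 1 < m)).map Prod.snd

theorem idx_lt (m : ℕ) (w : Word) : ∀ i ∈ idx m w, i < m - 1 := by
  intro i hi
  unfold idx at hi
  rw [List.mem_map] at hi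
  obtain ⟨x, hx, rfl⟩ := hi
  rw [List.mem_filter] at hx
  have := of_decide_eq_true hx.2
  omega

theorem idx_cons_pos (x : Bool × ℕ) (w : Word) (h : x.2 + 1 < m) :
    idx m (x :: w) = x.2 :: idx m w := by
  unfold idx
  rw [List.filter_cons_of_pos (by simpa using h), List.map_cons]

theorem idx_cons_neg (x : Bool × ℕ) (w : Word) (h : ¬ x.2 + 1 < m) :
    idx m (x :: w) = idx m w := by
  unfold idx
  rw [List.filter_cons_of_neg (by simpa using h)]

theorem wperm_idx (w : Word) : wperm m w = ((idx m w).map tr).prod := by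
  induction w with
  | nil => rfl
  | cons x w ih =>
    have h1 : wperm m (x :: w) =
        (if x.2 + 1 < m then Equiv.swap x.2 (x.2 + 1) else 1) * wperm m w := rfl
    rw [h1, ih]
    by_cases h : x.2 + 1 < m
    · rw [if_pos h, idx_cons_pos x w h]
      rfl
    · rw [if_neg h, idx_cons_neg x w h, one_mul]

theorem WU_idx {K : Type*} [Field K] (w : Word) : (WU (m := m) (1 : Kˣ) w)⁻¹ =
    mo m K ^ (idx m w).length *
      ((idx m w).map (fun i => mo m K * LU (m := m) (1 : Kˣ) (true, i))).prod := by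
  induction w with
  | nil => simp [WU, idx]
  | cons x w ih =>
    rw [WU, mul_inv_rev, ih]
    by_cases h : x.2 + 1 < m
    · rw [idx_cons_pos x w h, List.map_cons, List.prod_cons, List.length_cons, pow_succ]
      have h1 : (LU (m := m) (1 : Kˣ) x)⁻¹ = LU (1 : Kˣ) (true, x.2) := by
        rw [← LU_not]
        apply Units.ext
        show Lf (m := m) (1 : Kˣ) (!x.1) x.2 = Lf (1 : Kˣ) true x.2
        rw [Lf_one _ _ h, Lf_one _ _ h]
      rw [h1]
      have hc : Commute (mo m K ^ (idx m w).length) (LU (m := m) (1 : Kˣ) (true, x.2)) :=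
        Commute.pow_left (mo_comm _) _
      rw [← mul_assoc, ← hc.eq, mul_assoc, mul_assoc (mo m K ^ _) (mo m K), ← mul_assoc (mo m K),
        ← mul_assoc (mo m K), mo_mo, one_mul]
    · rw [idx_cons_neg x w h]
      have : (LU (m := m) (1 : Kˣ) x) = 1 := by
        apply Units.ext
        show Lf (m := m) (1 : Kˣ) x.1 x.2 = 1
        unfold Lf
        rw [dif_neg h]
      rw [this, inv_one, one_mul]

theorem WU_pow_one {K : Type*} [Field K] (w : Word) (P : ℕ) (h : wperm m w ^ P = 1) :
    (WU (m := m) (1 : Kˣ) w) ^ P = mo m K ^ ((idx m w).length * P) := by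
  have hrep : ∀ {G : Type _} [Group G] (s : ℕ → G) (P : ℕ),
      (((List.replicate P (idx m w)).flatten).map s).prod = ((idx m w).map s).prod ^ P := by
    intro G _ s P
    induction P with
    | zero => simp
    | succ P ih =>
      rw [List.replicate_succ, List.flatten_cons, List.map_append, List.prod_append, ih, pow_succ']
  have hrep' : ∀ (s : ℕ → Equiv.Perm ℕ) (P : ℕ),
      (((List.replicate P (idx m w)).flatten).map s).prod = ((idx m w).map s).prod ^ P := by
    intro s P
    induction P with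
    | zero => simp
    | succ P ih =>
      rw [List.replicate_succ, List.flatten_cons, List.map_append, List.prod_append, ih, pow_succ']
  have h1 := cox_main (m - 1) _ (cox_LU (m := m) (K := K)) ((List.replicate P (idx m w)).flatten)
    (by
      intro i hi
      rw [List.mem_flatten] at hi
      obtain ⟨l, hl, hi⟩ := hi
      rw [List.mem_replicate] at hl
      rw [hl.2] at hi
      exact idx_lt m w i hi) (by rw [hrep', ← wperm_idx, h])
  rw [hrep] at h1
  have h2 := WU_idx (m := m) (K := K) w
  set X := ((idx m w).map (fun i => mo m K * LU (m := m) (1 : Kˣ) (true, i))).prod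
  have hc : Commute (mo m K ^ (idx m w).length) X := Commute.pow_left (mo_comm X) _
  have h3 : ((WU (m := m) (1 : Kˣ) w)⁻¹) ^ P = mo m K ^ ((idx m w).length * P) := by
    rw [h2, hc.mul_pow, h1, mul_one, ← pow_mul]
  rw [inv_pow] at h3
  rw [← inv_inj, h3, ← inv_pow, mo_inv]

/-! ### reduction -/

theorem Lf_map {K' : Type*} [CommRing K'] (φ : K →+* K') (a : Kˣ) (b : Bool) (i : ℕ)
    (v : NX m → K) : (fun x => φ (Lf a b i v x)) =
      Lf (Units.map (φ : K →* K') a) b i (fun x => φ (v x)) := by
  by_cases h : i + 1 < m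
  · funext f
    rw [Lf_pos a b i h, Lf_pos _ b i h]
    have h1 : ∀ n : ℤ, φ ((a ^ n : Kˣ) : K) = ((Units.map (φ : K →* K') a ^ n : K'ˣ) : K') := by
      intro n
      rw [← map_zpow]
      rfl
    have h3 : φ (dd a) = dd (Units.map (φ : K →* K') a) := by
      unfold dd
      rw [map_sub, map_neg, h1, h1]
    rw [LinearMap.add_apply, LinearMap.add_apply, LinearMap.smul_apply, LinearMap.smul_apply,
      LinearMap.smul_apply, LinearMap.smul_apply, Pi.add_apply, Pi.add_apply, Pi.smul_apply,
      Pi.smul_apply, Pi.smul_apply, Pi.smul_apply, En_apply, En_apply, Module.End.one_apply,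
      Module.End.one_apply, smul_eq_mul, smul_eq_mul, smul_eq_mul, smul_eq_mul, map_add, map_mul,
      map_mul, map_mul, map_pow, h1, h1, h3]
  · unfold Lf
    rw [dif_neg h, dif_neg h]
    rfl

theorem WU_map {K' : Type*} [CommRing K'] (φ : K →+* K') (a : Kˣ) (w : Word) :
    ∀ (v : NX m → K), (fun x => φ ((WU a w : (Module.End K (NX m → K))ˣ).1 v x)) =
      (WU (Units.map (φ : K →* K') a) w : (Module.End K' (NX m → K'))ˣ).1 (fun x => φ (v x)) := by
  induction w with
  | nil => intro v; rfl
  | cons x w ih =>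
    intro v
    have h1 := ih (Lf a x.1 x.2 v)
    rw [Lf_map] at h1
    exact h1

theorem WU_pow_map {K' : Type*} [CommRing K'] (φ : K →+* K') (a : Kˣ) (w : Word) (P : ℕ) :
    ∀ (v : NX m → K), (fun x => φ ((WU a w ^ P : (Module.End K (NX m → K))ˣ).1 v x)) =
      (WU (Units.map (φ : K →* K') a) w ^ P : (Module.End K' (NX m → K'))ˣ).1
        (fun x => φ (v x)) := by
  induction P with
  | zero => intro v; rfl
  | succ P ih =>
    intro v
    have h1 := ih ((WU a w : (Module.End K (NX m → K))ˣ).1 v)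
    rw [WU_map] at h1
    rw [pow_succ, pow_succ]
    exact h1

/-! ### the vector of an outside -/

/-- the vector of an outside -/
noncomputable def gv (a : Kˣ) (O : Outer m) : NX m → K := fun f => spec a (fill O f.1).bracket

theorem gv_push (hm : 0 < m) (a : Kˣ) (O : Outer m) (x : Bool × ℕ) :
    gv a (O.push x.1 x.2) = (LU a x : (Module.End K (NX m → K))ˣ).1 (gv a O) := by
  obtain ⟨b, i⟩ := x
  by_cases h : i + 1 < m
  · funext f
    show gv a (O.push b i) f = Lf a b i (gv a O) f
    rw [Lf_pos a b i h]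
    unfold gv
    rw [push_fill hm O b i h, map_add, map_mul, map_mul,
        map_mul, map_pow, map_sub, map_neg, spec_T, spec_T, spec_T, spec_T]
    rfl
  · have h1 : O.push b i = O := by unfold Outer.push; rw [dif_neg h]
    have h2 : (LU (m := m) a (b, i)).1 = 1 := by
      show Lf a b i = 1
      unfold Lf; rw [dif_neg h]
    show gv a (O.push b i) = (LU a (b, i)).1 (gv a O)
    rw [h1, h2]
    rfl

theorem gv_draw (hm : 0 < m) (a : Kˣ) (w : List (Bool × ℕ)) : ∀ (O : Outer m),
    gv a (draw O w) = (WU a w : (Module.End K (NX m → K))ˣ).1 (gv a O) := by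
  induction w with
  | nil => intro O; rfl
  | cons x w ih =>
    intro O
    have h1 : draw O (x :: w) = draw (O.push x.1 x.2) w := rfl
    rw [h1, ih, gv_push hm, WU, Units.val_mul]
    rfl

theorem gv_iter (hm : 0 < m) (a : Kˣ) (w : List (Bool × ℕ)) : ∀ (n : ℕ) (O : Outer m),
    gv a ((fun O : Outer m => draw O w)^[n] O) =
      (WU a w ^ n : (Module.End K (NX m → K))ˣ).1 (gv a O) := by
  intro n
  induction n with
  | zero => intro O; rfl
  | succ n ih =>
    intro O
    rw [Function.iterate_succ_apply, ih, gv_draw hm, pow_succ, Units.val_mul]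
    rfl

theorem gv_power (hm : 0 < m) (a : Kˣ) (w : List (Bool × ℕ)) (n : ℤ) (O : Outer m) :
    gv a (power O w n) = (WU a w ^ n : (Module.End K (NX m → K))ˣ).1 (gv a O) := by
  rcases n with n | n
  · rw [power, gv_iter hm]
    simp
  · rw [power, gv_iter hm, WU_invWord, zpow_negSucc, inv_pow]

/-! ### orientations and the writhe -/

/-- the transposition -/
def swp (i : ℕ) (h : i + 1 < m) : Equiv.Perm (Fin m) :=
  Equiv.swap ⟨i, Nat.lt_of_succ_lt h⟩ ⟨i + 1, h⟩

/-- the product of the directions -/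
def cst (U : Fin m → Bool) (i : ℕ) : ℤ := pat U i * pat U (i + 1)

theorem swp_swp (U : Fin m → Bool) (i : ℕ) (h : i + 1 < m) : (U ∘ swp i h) ∘ swp i h = U := by
  funext j; simp [swp]

theorem cst_swp (U : Fin m → Bool) (i : ℕ) (h : i + 1 < m) : cst (U ∘ swp i h) i = cst U i := by
  unfold cst swp
  rw [pat_swap U i h]
  simp only [Function.comp_apply, Equiv.swap_apply_left, Equiv.swap_apply_right]
  ring

theorem cst_cases (U : Fin m → Bool) (i : ℕ) (h : i + 1 < m) : cst U i = 1 ∨ cst U i = -1 := by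
  unfold cst pat
  rw [dif_pos (Nat.lt_of_succ_lt h), dif_pos h]
  split_ifs <;> simp

theorem swp_val (i : ℕ) (h : i + 1 < m) (x : Fin m) :
    ((swp i h x : Fin m) : ℕ) = Equiv.swap i (i + 1) (x : ℕ) := by
  unfold swp
  rw [Equiv.swap_apply_def, Equiv.swap_apply_def]
  by_cases h1 : x = ⟨i, Nat.lt_of_succ_lt h⟩
  · rw [if_pos h1, if_pos (by rw [h1])]
  · rw [if_neg h1, if_neg (fun e => h1 (Fin.ext e))]
    by_cases h2 : x = ⟨i + 1, h⟩
    · rw [if_pos h2, if_pos (by rw [h2])]
    · rw [if_neg h2, if_neg (fun e => h2 (Fin.ext e))]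

/-- orientation pattern and writhe -/
abbrev St (m : ℕ) : Type := (Fin m → Bool) × ℤ

/-- effect of a letter on orientation pattern and writhe -/
def pf (m : ℕ) (x : Bool × ℕ) (s : St m) : St m :=
  if h : x.2 + 1 < m then (s.1 ∘ swp x.2 h, s.2 + sgb x.1 * cst s.1 x.2) else s

theorem pf_pos (x : Bool × ℕ) (s : St m) (h : x.2 + 1 < m) :
    pf m x s = (s.1 ∘ swp x.2 h, s.2 + sgb x.1 * cst s.1 x.2) := dif_pos h

theorem pf_neg (x : Bool × ℕ) (s : St m) (h : ¬ x.2 + 1 < m) : pf m x s = s := dif_neg h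

theorem pf_pf (x : Bool × ℕ) (s : St m) : pf m (!x.1, x.2) (pf m x s) = s := by
  by_cases h : x.2 + 1 < m
  · rw [pf_pos x s h, pf_pos (!x.1, x.2) _ h]
    dsimp only
    rw [swp_swp, cst_swp, sgb_not]
    apply Prod.ext
    · rfl
    · show s.2 + sgb x.1 * cst s.1 x.2 + -sgb x.1 * cst s.1 x.2 = s.2
      ring
  · rw [pf_neg x s h, pf_neg (!x.1, x.2) _ h]

/-- the letters as permutations -/
def PU (m : ℕ) (x : Bool × ℕ) : Equiv.Perm (St m) where
  toFun := pf m x
  invFun := pf m (!x.1, x.2)
  left_inv := pf_pf x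
  right_inv := by
    intro s
    have := pf_pf (!x.1, x.2) s
    simp only [Bool.not_not] at this
    exact this

/-- the words as permutations -/
def QU (m : ℕ) : List (Bool × ℕ) → Equiv.Perm (St m)
  | [] => 1
  | (x :: w) => QU m w * PU m x

theorem QU_append (u v : List (Bool × ℕ)) : QU m (u ++ v) = QU m v * QU m u := by
  induction u with
  | nil => simp [QU]
  | cons x u ih => rw [List.cons_append, QU, ih, QU, mul_assoc]

theorem PU_not (x : Bool × ℕ) : PU m (!x.1, x.2) = (PU m x)⁻¹ := by
  rw [eq_inv_iff_mul_eq_one]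
  apply Equiv.ext
  intro s
  exact pf_pf x s

theorem QU_invWord (w : List (Bool × ℕ)) : QU m (invWord w) = (QU m w)⁻¹ := by
  induction w with
  | nil => simp [QU, invWord]
  | cons x w ih =>
    have h : invWord (x :: w) = invWord w ++ [(!x.1, x.2)] := by
      simp [invWord]
    rw [h, QU_append, ih]
    simp only [QU, one_mul, mul_inv_rev, PU_not]

/-- the state of an outside -/
def stt (O : Outer m) : St m := (O.up, owr O)

theorem stt_push (O : Outer m) (x : Bool × ℕ) : stt (O.push x.1 x.2) = PU m x (stt O) := by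
  show _ = pf m x (stt O)
  by_cases h : x.2 + 1 < m
  · rw [pf_pos x _ h]
    apply Prod.ext
    · show (O.push x.1 x.2).up = _
      unfold Outer.push
      rw [dif_pos h]
      rfl
    · show owr (O.push x.1 x.2) = _
      rw [(push_writhe O x.1 x.2 h).1]
      rfl
  · have h1 : O.push x.1 x.2 = O := by unfold Outer.push; rw [dif_neg h]
    rw [pf_neg x _ h, h1]

theorem stt_draw (w : List (Bool × ℕ)) : ∀ (O : Outer m), stt (draw O w) = QU m w (stt O) := by
  induction w with
  | nil => intro O; rfl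
  | cons x w ih =>
    intro O
    have h1 : draw O (x :: w) = draw (O.push x.1 x.2) w := rfl
    rw [h1, ih, stt_push, QU]
    rfl

theorem stt_iter (w : List (Bool × ℕ)) : ∀ (n : ℕ) (O : Outer m),
    stt ((fun O : Outer m => draw O w)^[n] O) = (QU m w ^ n) (stt O) := by
  intro n
  induction n with
  | zero => intro O; rfl
  | succ n ih =>
    intro O
    rw [Function.iterate_succ_apply, ih, stt_draw, pow_succ]
    rfl

theorem stt_power (w : List (Bool × ℕ)) (n : ℤ) (O : Outer m) :
    stt (power O w n) = (QU m w ^ n) (stt O) := by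
  rcases n with n | n
  · rw [power, stt_iter]
    simp
  · rw [power, stt_iter, QU_invWord, zpow_negSucc, inv_pow]

/-- the writhe is additive -/
theorem QU_shift (w : List (Bool × ℕ)) : ∀ (s : St m) (c : ℤ),
    QU m w (s.1, s.2 + c) = ((QU m w s).1, (QU m w s).2 + c) := by
  induction w with
  | nil => intro s c; rfl
  | cons x w ih =>
    intro s c
    have h1 : pf m x (s.1, s.2 + c) = ((pf m x s).1, (pf m x s).2 + c) := by
      by_cases h : x.2 + 1 < m
      · rw [pf_pos x s h, pf_pos x _ h]
        apply Prod.ext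
        · rfl
        · show s.2 + c + _ = s.2 + _ + c
          ring
      · rw [pf_neg x s h, pf_neg x _ h]
    show QU m w (pf m x (s.1, s.2 + c)) = ((QU m w (pf m x s)).1, (QU m w (pf m x s)).2 + c)
    rw [h1, ih]

theorem QU_pow_shift (w : List (Bool × ℕ)) (k : ℕ) (s : St m) (c : ℤ) :
    (QU m w ^ k) (s.1, s.2 + c) = (((QU m w ^ k) s).1, ((QU m w ^ k) s).2 + c) := by
  induction k with
  | zero => rfl
  | succ k ih =>
    rw [pow_succ', Equiv.Perm.mul_apply, Equiv.Perm.mul_apply, ih, QU_shift]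

theorem QU_parity (w : List (Bool × ℕ)) : ∀ (s : St m),
    Even ((QU m w s).2 - s.2 - (idx m w).length) := by
  induction w with
  | nil => intro s; simp [QU, idx]
  | cons x w ih =>
    intro s
    show Even ((QU m w (pf m x s)).2 - s.2 - (idx m (x :: w)).length)
    have h2 := ih (pf m x s)
    by_cases h : x.2 + 1 < m
    · rw [idx_cons_pos x w h, List.length_cons]
      have h1 : (pf m x s).2 = s.2 + sgb x.1 * cst s.1 x.2 := by rw [pf_pos x s h]
      rw [h1] at h2
      rcases cst_cases s.1 x.2 h with h3 | h3 <;> rw [h3] at h2 <;> unfold sgb at h2 <;>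
        split_ifs at h2 <;> push_cast <;> rw [Int.even_iff] at h2 ⊢ <;> omega
    · rw [idx_cons_neg x w h]
      rwa [pf_neg x s h] at h2 ⊢

theorem QU_pow_parity (w : List (Bool × ℕ)) (k : ℕ) (s : St m) :
    Even (((QU m w ^ k) s).2 - s.2 - ((idx m w).length * k : ℕ)) := by
  induction k with
  | zero => simp
  | succ k ih =>
    rw [pow_succ', Equiv.Perm.mul_apply]
    have h1 := QU_parity w ((QU m w ^ k) s)
    have h2 := h1.add ih
    have e : (QU m w ((QU m w ^ k) s)).2 - s.2 - ((idx m w).length * (k + 1) : ℕ) =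
      (QU m w ((QU m w ^ k) s)).2 - ((QU m w ^ k) s).2 - (idx m w).length +
        (((QU m w ^ k) s).2 - s.2 - ((idx m w).length * k : ℕ)) := by
      push_cast; ring
    rw [e]
    exact h2

/-- the permutation of a word on the set of strands -/
def fperm (m : ℕ) : List (Bool × ℕ) → Equiv.Perm (Fin m)
  | [] => 1
  | (x :: w) => (if h : x.2 + 1 < m then swp x.2 h else 1) * fperm m w

theorem fperm_val (w : List (Bool × ℕ)) (j : Fin m) : ((fperm m w j : Fin m) : ℕ) = wperm m w j := by
  induction w with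
  | nil => rfl
  | cons x w ih =>
    have h1 : wperm m (x :: w) =
        (if x.2 + 1 < m then Equiv.swap x.2 (x.2 + 1) else 1) * wperm m w := rfl
    rw [h1, fperm, Equiv.Perm.mul_apply, Equiv.Perm.mul_apply, ← ih]
    by_cases h : x.2 + 1 < m
    · rw [dif_pos h, if_pos h, swp_val]
    · rw [dif_neg h, if_neg h]
      rfl

theorem fperm_pow_val (w : List (Bool × ℕ)) (k : ℕ) (j : Fin m) :
    (((fperm m w ^ k) j : Fin m) : ℕ) = (wperm m w ^ k) j := by
  induction k with
  | zero => rfl
  | succ k ih =>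
    rw [pow_succ', pow_succ', Equiv.Perm.mul_apply, Equiv.Perm.mul_apply, fperm_val, ih]

theorem QU_fst (w : List (Bool × ℕ)) : ∀ (s : St m), (QU m w s).1 = s.1 ∘ fperm m w := by
  induction w with
  | nil => intro s; rfl
  | cons x w ih =>
    intro s
    show (QU m w (pf m x s)).1 = _
    rw [ih]
    by_cases h : x.2 + 1 < m
    · rw [pf_pos x s h, fperm, dif_pos h]
      rfl
    · rw [pf_neg x s h, fperm, dif_neg h]
      rfl

theorem QU_pow_fst (w : List (Bool × ℕ)) (k : ℕ) (s : St m) :
    ((QU m w ^ k) s).1 = s.1 ∘ ⇑(fperm m w ^ k) := by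
  induction k with
  | zero => rfl
  | succ k ih =>
    rw [pow_succ', Equiv.Perm.mul_apply, QU_fst, ih, pow_succ]
    rfl

/-- powers of a word with trivial permutation act by translations of the writhe -/
theorem QU_trans (w : List (Bool × ℕ)) (P : ℕ) (hP : wperm m w ^ P = 1) (s : St m) :
    ∃ e : ℤ, (Even (e - ((idx m w).length * P : ℕ))) ∧
      ∀ t : ℤ, ((QU m w ^ P) ^ t) s = (s.1, s.2 + t * e) := by
  have hf : fperm m w ^ P = 1 := by
    apply Equiv.ext
    intro j
    apply Fin.ext
    rw [fperm_pow_val, hP]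
    rfl
  set e := ((QU m w ^ P) s).2 - s.2 with he
  have h0 : (QU m w ^ P) s = (s.1, s.2 + e) := by
    apply Prod.ext
    · rw [QU_pow_fst, hf]
      rfl
    · show _ = s.2 + (((QU m w ^ P) s).2 - s.2)
      ring
  have h1 : ∀ c : ℤ, (QU m w ^ P) (s.1, s.2 + c) = (s.1, s.2 + (c + e)) := by
    intro c
    rw [QU_pow_shift, h0]
    apply Prod.ext
    · rfl
    · show s.2 + e + c = s.2 + (c + e)
      ring
  have hpos : ∀ t : ℕ, ((QU m w ^ P) ^ t) s = (s.1, s.2 + t * e) := by
    intro t
    induction t with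
    | zero => simp
    | succ t ih =>
      rw [pow_succ', Equiv.Perm.mul_apply, ih, h1]
      push_cast
      congr 2
      ring
  have hneg1 : ∀ c : ℤ, (QU m w ^ P)⁻¹ (s.1, s.2 + c) = (s.1, s.2 + (c - e)) := by
    intro c
    rw [Equiv.Perm.inv_eq_iff_eq, h1]
    congr 2
    ring
  have hneg : ∀ t : ℕ, (((QU m w ^ P)⁻¹) ^ t) s = (s.1, s.2 + (-(t : ℤ)) * e) := by
    intro t
    induction t with
    | zero => simp
    | succ t ih =>
      rw [pow_succ', Equiv.Perm.mul_apply, ih, hneg1]
      push_cast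
      congr 2
      ring
  refine ⟨e, QU_pow_parity w P s, fun t => ?_⟩
  rcases t with t | t
  · exact hpos t
  · rw [zpow_negSucc, ← inv_pow, hneg]
    rfl

end Q99.SML2
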